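import Pool.Agent.W780.PG.Stm

set_option autoImplicit false

/-!
Polygons whose sides are parallel to the sides of a convex polygon: if the extent in some generic
direction vanishes then the signed area is not positive.
-/

namespace Run7.h907.BL

open Complex Set Pool.Agent.W780.PG

open scoped ComplexConjugate

/-- the shear coordinate -/
def sx (t : ℝ) (z : ℂ) : ℝ := z.re + t * z.im

theorem area_shear (t : ℝ) (z w : ℂ) : (conj z * w).im = sx t z * w.im - z.im * sx t w := by
  simp only [mul_im, conj_re, conj_im, sx]; ring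

/-- there is a shear in which no side is vertical -/
theorem exists_shear {ι : Type} [Finite ι] (d : ι → ℂ) (hd : ∀ i, d i ≠ 0) :
    ∃ t : ℝ, ∀ i, sx t (d i) ≠ 0 := by
  classical
  have hfin : (⋃ i, {t : ℝ | sx t (d i) = 0}).Finite := by
    refine Set.finite_iUnion fun i => ?_
    by_cases h : (d i).im = 0
    · have : {t : ℝ | sx t (d i) = 0} = ∅ := by
        ext t
        simp only [mem_ofPred_eq, mem_empty_iff_false, iff_false, sx, h, mul_zero, add_zero]
        intro h2
        exact hd i (Complex.ext h2 h)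
      rw [this]; exact finite_empty
    · refine (Set.finite_singleton (-(d i).re / (d i).im)).subset fun t ht => ?_
      simp only [mem_ofPred_eq, sx] at ht
      rw [mem_singleton_iff, eq_div_iff h]
      linarith
  obtain ⟨t, ht⟩ := hfin.infinite_compl.nonempty
  refine ⟨t, fun i hi => ht ?_⟩
  exact mem_iUnion.2 ⟨i, hi⟩

variable {n : ℕ}

theorem cramer (u v w : ℂ) : (((conj u * v).im : ℝ) : ℂ) * w =
    (((conj u * w).im : ℝ) : ℂ) * v - (((conj v * w).im : ℝ) : ℂ) * u := by
  apply Complex.ext
  · simp only [mul_re, sub_re, ofReal_re, ofReal_im, mul_im, conj_re, conj_im]; ring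
  · simp only [mul_re, sub_im, ofReal_re, ofReal_im, mul_im, conj_re, conj_im]; ring

/-- consecutive sides turn left -/
theorem turn {p : Fin (n + 3) → ℂ} (hp : IsConvexPolygon p) (i : Fin (n + 3)) :
    0 < (conj (p (i + 1) - p i) * (p (i + 1 + 1) - p (i + 1))).im := by
  have h := hp.pos i (i + 1 + 1) ?_ ?_
  · unfold lft at h
    have e : (conj (p (i + 1) - p i) * (p (i + 1 + 1) - p (i + 1))).im =
        (conj (p (i + 1) - p i) * (p (i + 1 + 1) - p i)).im := by
      simp only [mul_im, conj_re, conj_im, sub_re, sub_im]; ring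
    rw [e]; exact h
  · intro h
    have h2 : (1 : Fin (n + 3)) + 1 = 0 := by
      have := congrArg (fun x => x - i) h
      simpa [add_assoc, add_sub_cancel_left] using this
    have h3 := congrArg Fin.val h2
    simp only [Fin.val_add, Fin.val_one, Fin.val_zero] at h3
    rw [Nat.mod_eq_of_lt (by omega)] at h3
    omega
  · intro h
    have h2 : (1 : Fin (n + 3)) = 0 := by
      have := congrArg (fun x => x - (i + 1)) h
      simpa [add_sub_cancel_left] using this
    exact absurd h2 (by rw [Fin.ext_iff]; simp)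

theorem side_ne {p : Fin (n + 3) → ℂ} (hp : IsConvexPolygon p) (i : Fin (n + 3)) :
    p (i + 1) - p i ≠ 0 := by
  intro h
  have := turn hp i
  rw [h] at this
  simp at this

/-- the polygon lies in the angle at each vertex -/
theorem cone {p : Fin (n + 3) → ℂ} (hp : IsConvexPolygon p) (i j : Fin (n + 3)) (hij : j ≠ i + 1) :
    ∃ α β : ℝ, 0 ≤ α ∧ 0 ≤ β ∧ 0 < α + β ∧
      p j - p (i + 1) = α * (p (i + 1 + 1) - p (i + 1)) - β * (p (i + 1) - p i) := by
  set u := p (i + 1) - p i with hu
  set v := p (i + 1 + 1) - p (i + 1) with hv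
  set D := (conj u * v).im with hD
  have hDpos : 0 < D := turn hp i
  set w := p j - p (i + 1) with hw
  -- w = α v - β u, α = (conj u * w).im / D, β = (conj v * w).im / D
  have hα : 0 ≤ (conj u * w).im := by
    by_cases h1 : j = i
    · rw [hw, h1, show p i - p (i + 1) = -u by rw [hu]; ring]
      simp only [mul_im, conj_re, conj_im, neg_re, neg_im]
      apply le_of_eq; ring
    · have h := hp.pos i j h1 hij
      unfold lft at h
      have e : (conj u * w).im = (conj (p (i + 1) - p i) * (p j - p i)).im := by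
        simp only [hu, hw, mul_im, conj_re, conj_im, sub_re, sub_im]; ring
      rw [e]; exact h.le
  have hβ : 0 ≤ (conj v * w).im := by
    by_cases h1 : j = i + 1 + 1
    · rw [hw, h1, show p (i + 1 + 1) - p (i + 1) = v by rw [hv]]
      simp only [mul_im, conj_re, conj_im]
      apply le_of_eq; ring
    · have h := hp.pos (i + 1) j hij h1
      unfold lft at h
      rw [hv, hw]; exact h.le
  have hw0 : w = ((conj u * w).im / D : ℝ) * v - ((conj v * w).im / D : ℝ) * u := by
    have hD' : (D : ℂ) ≠ 0 := by exact_mod_cast hDpos.ne'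
    have h := cramer u v w
    rw [← hD] at h
    rw [ofReal_div, ofReal_div, div_mul_eq_mul_div, div_mul_eq_mul_div, ← sub_div, eq_div_iff hD',
      ← h, mul_comm]
  refine ⟨(conj u * w).im / D, (conj v * w).im / D, by positivity, by positivity, ?_, hw0⟩
  by_contra hcon
  have h1 : 0 ≤ (conj u * w).im / D := by positivity
  have h2 : 0 ≤ (conj v * w).im / D := by positivity
  have h3 : (conj u * w).im / D = 0 := by linarith
  have h4 : (conj v * w).im / D = 0 := by linarith
  rw [h3, h4] at hw0
  simp only [ofReal_zero, zero_mul, sub_zero] at hw0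
  -- w = 0: the vertices j and i + 1 coincide; impossible since j lies strictly left of some side
  have hj : p j = p (i + 1) := by rw [hw] at hw0; exact sub_eq_zero.1 hw0
  by_cases h5 : j = i + 1 + 1
  · have := side_ne hp (i + 1)
    rw [← h5, hj] at this
    simp at this
  · have h := hp.pos (i + 1) j hij h5
    rw [hj] at h
    simp [lft] at h

theorem sx_add (t : ℝ) (z w : ℂ) : sx t (z + w) = sx t z + sx t w := by simp [sx]; ring

theorem sx_sub (t : ℝ) (z w : ℂ) : sx t (z - w) = sx t z - sx t w := by simp [sx]; ring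

theorem sx_mul (t r : ℝ) (z : ℂ) : sx t (r * z) = r * sx t z := by simp [sx]; ring

/-- the linear functional with the two extremal vertices -/
theorem exists_functional {p : Fin (n + 3) → ℂ} (hp : IsConvexPolygon p) :
    ∃ (t : ℝ) (L R : Fin (n + 3)), sx t (p L) < sx t (p R) ∧
      ∀ Q : Fin (n + 3) → ℂ, (∀ i, ∃ r : ℝ, Q (i + 1) - Q i = r * (p (i + 1) - p i)) →
        sx t (Q L) = sx t (Q R) → ∑ i, (conj (Q i) * Q (i + 1)).im ≤ 0 := by
  obtain ⟨t, ht⟩ := exists_shear (fun i : Fin (n + 3) => p (i + 1) - p i) (side_ne hp)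
  obtain ⟨R, hR⟩ := Finite.exists_max (fun i : Fin (n + 3) => sx t (p i))
  obtain ⟨L, hL⟩ := Finite.exists_min (fun i : Fin (n + 3) => sx t (p i))
  refine ⟨t, L, R, ?_, fun Q hQ hLR => ?_⟩
  · rcases lt_or_eq_of_le (hL R) with h | h
    · exact h
    · exfalso
      have h1 : ∀ i, sx t (p i) = sx t (p R) := fun i => le_antisymm (hR i) (by
        rw [← h]; exact hL i)
      refine ht 0 ?_
      simp only [sx_sub]
      rw [h1, h1 0, sub_self]
  set d : Fin (n + 3) → ℂ := fun i => p (i + 1) - p i with hd
  set m : Fin (n + 3) → ℝ := fun i => (d i).im / sx t (d i) with hm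
  set c : ℝ := sx t (Q R) with hc
  set g : Fin (n + 3) → ℝ := fun i => (sx t (Q i) - c) ^ 2 with hg
  have hy : ∀ i, (Q (i + 1)).im - (Q i).im = m i * (sx t (Q (i + 1)) - sx t (Q i)) := by
    intro i
    obtain ⟨r, hr⟩ := hQ i
    rw [← sub_im, ← sx_sub, hr, sx_mul, im_ofReal_mul]
    simp only [hm, hd]
    have := ht i
    field_simp
  have hshift : ∀ φ : Fin (n + 3) → ℝ, ∑ i, φ (i + 1) = ∑ i, φ i := fun φ =>
    Fintype.sum_equiv (Equiv.addRight (1 : Fin (n + 3))) _ _ fun _ => rfl
  -- twice the area
  have hA : ∑ i, (conj (Q i) * Q (i + 1)).im = ∑ i, (m i - m (i + 1)) * g (i + 1) := by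
    have h1 : ∀ i, (conj (Q i) * Q (i + 1)).im = m i * (g (i + 1) - g i) +
        ((sx t (Q i) * (Q i).im - 2 * c * (Q i).im) -
          (sx t (Q (i + 1)) * (Q (i + 1)).im - 2 * c * (Q (i + 1)).im)) := by
      intro i
      have h2 : m i * (g (i + 1) - g i) =
          (sx t (Q i) + sx t (Q (i + 1)) - 2 * c) * ((Q (i + 1)).im - (Q i).im) := by
        rw [hy]
        simp only [hg]; ring
      rw [h2, area_shear t]
      ring
    rw [Finset.sum_congr rfl fun i _ => h1 i, Finset.sum_add_distrib, Finset.sum_sub_distrib,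
      hshift (fun i => sx t (Q i) * (Q i).im - 2 * c * (Q i).im), sub_self, add_zero]
    have h3 : ∑ i, m (i + 1) * g (i + 1) = ∑ i, m i * g i := hshift fun i => m i * g i
    simp only [mul_sub, sub_mul, Finset.sum_sub_distrib]
    rw [h3]
  rw [hA]
  refine Finset.sum_nonpos fun i _ => ?_
  by_cases hjR : i + 1 = R
  · have : g (i + 1) = 0 := by simp only [hg, hjR, hc]; ring
    rw [this, mul_zero]
  by_cases hjL : i + 1 = L
  · have : g (i + 1) = 0 := by simp only [hg, hjL, hLR]; ring
    rw [this, mul_zero]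
  have hgn : 0 ≤ g (i + 1) := sq_nonneg _
  have hdi : sx t (d i) ≠ 0 := ht i
  have hdi1 : sx t (d (i + 1)) ≠ 0 := ht (i + 1)
  have hpos : 0 < sx t (d i) * sx t (d (i + 1)) := by
    rcases lt_or_gt_of_ne hdi with h1 | h1 <;> rcases lt_or_gt_of_ne hdi1 with h2 | h2
    · exact mul_pos_of_neg_of_neg h1 h2
    · -- local minimum
      exfalso
      obtain ⟨α, β, ha, hb, hab, he⟩ := cone hp i L (Ne.symm hjL)
      have h3 : sx t (p L) - sx t (p (i + 1)) = α * sx t (d (i + 1)) - β * sx t (d i) := by
        rw [← sx_sub, he, sx_sub, sx_mul, sx_mul]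
      have h4 := hL (i + 1)
      have h5 : 0 < α * sx t (d (i + 1)) - β * sx t (d i) := by
        rcases lt_or_eq_of_le ha with h6 | h6
        · nlinarith [mul_pos h6 h2, mul_nonneg hb (neg_pos.2 h1).le]
        · have h7 : 0 < β := by linarith
          nlinarith [mul_pos h7 (neg_pos.2 h1)]
      linarith
    · -- local maximum
      exfalso
      obtain ⟨α, β, ha, hb, hab, he⟩ := cone hp i R (Ne.symm hjR)
      have h3 : sx t (p R) - sx t (p (i + 1)) = α * sx t (d (i + 1)) - β * sx t (d i) := by
        rw [← sx_sub, he, sx_sub, sx_mul, sx_mul]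
      have h4 := hR (i + 1)
      have h5 : α * sx t (d (i + 1)) - β * sx t (d i) < 0 := by
        rcases lt_or_eq_of_le ha with h6 | h6
        · nlinarith [mul_pos h6 (neg_pos.2 h2), mul_nonneg hb h1.le]
        · have h7 : 0 < β := by linarith
          nlinarith [mul_pos h7 h1]
      linarith
    · exact mul_pos h1 h2
  have hturn : 0 < (conj (d i) * d (i + 1)).im := turn hp i
  rw [area_shear t] at hturn
  have hmm : m i - m (i + 1) ≤ 0 := by
    have : m i - m (i + 1) = -((sx t (d i) * (d (i + 1)).im - (d i).im * sx t (d (i + 1))) /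
        (sx t (d i) * sx t (d (i + 1)))) := by
      simp only [hm]
      field_simp
      ring
    rw [this]
    exact neg_nonpos.2 (div_pos hturn hpos).le
  exact mul_nonpos_of_nonpos_of_nonneg hmm hgn

end Run7.h907.BL
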