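import Pool.Agent.Run7.h907.BL.Rev

set_option autoImplicit false

/-!
Polygons with at most two angles different from a right angle: invariant functions do not change
under the reversal of the direction.
-/

namespace Run7.h907.BL

open Complex Set MeasureTheory Filter Topology Pool.Agent.W780.PG Pool.Agent.W780.BB
  Pool.Agent.TH103.BL Pool.Agent.N440.LB

open scoped Real ComplexConjugate

variable {n : ℕ}

/-- the Fourier coefficients after the reversal of the direction -/
theorem coef_rev {g : ℝ → ℝ} (hper : ∀ θ, g (θ + 2 * π) = g θ) (m : ℕ) :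
    ∫ θ in (0 : ℝ)..(2 * π), (g (θ + π) : ℂ) * exp (((m : ℝ) * θ : ℝ) * I) =
      (-1) ^ m * ∫ θ in (0 : ℝ)..(2 * π), (g θ : ℂ) * exp (((m : ℝ) * θ : ℝ) * I) := by
  have h1 : ∀ θ : ℝ, (g (θ + π) : ℂ) * exp (((m : ℝ) * θ : ℝ) * I) =
      (fun x : ℝ => (-1) ^ m * ((g x : ℂ) * exp (((m : ℝ) * x : ℝ) * I))) (θ + π) := by
    intro θ
    have e1 : exp (((m : ℝ) * (θ + π) : ℝ) * I) = exp (((m : ℝ) * θ : ℝ) * I) * (-1) ^ m := by
      rw [← exp_pi_mul_I, ← exp_nat_mul, ← exp_add]
      congr 1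
      push_cast
      ring
    have e2 : ((-1 : ℂ) ^ m) * (-1) ^ m = 1 := by
      rw [← mul_pow]; norm_num
    simp only
    rw [e1]
    linear_combination (-(g (θ + π) : ℂ) * exp (((m : ℝ) * θ : ℝ) * I)) * e2
  simp only [h1]
  rw [intervalIntegral.integral_comp_add_right
    (fun x : ℝ => (-1) ^ m * ((g x : ℂ) * exp (((m : ℝ) * x : ℝ) * I))) π, zero_add,
    intervalIntegral.integral_const_mul]
  congr 1
  have hP : Function.Periodic (fun x : ℝ => (g x : ℂ) * exp (((m : ℝ) * x : ℝ) * I)) (2 * π) := by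
    intro x
    simp only
    rw [hper]
    congr 1
    have : (((m : ℝ) * (x + 2 * π) : ℝ) : ℂ) * I = (((m : ℝ) * x : ℝ) : ℂ) * I + m * (2 * π * I) := by
      push_cast; ring
    rw [this, exp_add, exp_nat_mul_two_pi_mul_I, mul_one]
  have := hP.intervalIntegral_add_eq π 0
  rw [zero_add] at this
  rw [show 2 * π + π = π + 2 * π by ring]
  exact this

/-- reversal of the direction: bounded functions -/
theorem rev_bdd (P : Parts) {p : Fin (n + 3) → ℂ} (hp : IsConvexPolygon p) {a b : Fin (n + 3)}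
    (hab : ∀ i, i ≠ a → i ≠ b → ang p i = π / 2) {f : ℂ × ℝ → ℝ}
    (hf : Measurable f) {C₀ : ℝ} (hb : ∀ x, |f x| ≤ C₀) (hI : IsInvariantFun p f) :
    ∀ᵐ z ∂(volume.restrict (reg p)), ∀ᵐ θ : ℝ, f (z, θ + π) = f (z, θ) := by
  have hfin := reg_bounded P.hull hp
  have hmeas : MeasurableSet (reg p) := (P.basic n p hp).2.1.measurableSet
  set g : ℂ → ℝ → ℝ := fun z θ => f (z, θ) - f (z, θ + π) with hg
  have hgm : Measurable (Function.uncurry g) := by
    have h1 : Measurable (fun x : ℂ × ℝ => (x.1, x.2 + π)) :=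
      measurable_fst.prodMk (measurable_snd.add measurable_const)
    exact hf.sub (hf.comp h1)
  have hgb : ∀ z θ, |g z θ| ≤ C₀ + C₀ := fun z θ =>
    (abs_sub _ _).trans (add_le_add (hb _) (hb _))
  have hgp : ∀ z θ, g z (θ + 2 * π) = g z θ := by
    intro z θ
    simp only [hg]
    rw [show θ + 2 * π + π = (θ + π) + 2 * π by ring, hI.periodic, hI.periodic]
  have hrev : ∀ z m, ∫ θ in (0 : ℝ)..(2 * π), (f (z, θ + π) : ℂ) * exp (((m : ℕ) * θ : ℝ) * I) =
      (-1) ^ m * ∫ θ in (0 : ℝ)..(2 * π), (f (z, θ) : ℂ) * exp (((m : ℕ) * θ : ℝ) * I) :=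
    fun z m => coef_rev (g := fun θ => f (z, θ)) (fun θ => hI.periodic z θ) m
  have hii2 : ∀ z (m : ℕ), IntervalIntegrable
      (fun θ : ℝ => (f (z, θ + π) : ℂ) * exp ((m * θ : ℝ) * I)) volume 0 (2 * π) := by
    intro z m
    refine ii' (K := C₀) ?_ ?_
    · have h : Continuous (fun θ : ℝ => exp ((m * θ : ℝ) * I)) := by fun_prop
      have h2 : Measurable (fun θ : ℝ => f (z, θ + π)) :=
        hf.comp (measurable_const.prodMk (measurable_id.add measurable_const))
      exact ((measurable_ofReal.comp h2).mul h.measurable).stronglyMeasurable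
    · intro θ
      rw [norm_mul, norm_exp_ofReal_mul_I, mul_one, norm_real]
      exact hb _
  have hcoef : ∀ z (m : ℕ), ∫ θ in (0 : ℝ)..(2 * π), (g z θ : ℂ) * exp ((m * θ : ℝ) * I) =
      (1 - (-1) ^ m) * ∫ θ in (0 : ℝ)..(2 * π), (f (z, θ) : ℂ) * exp ((m * θ : ℝ) * I) := by
    intro z m
    have h1 : ∀ θ : ℝ, (g z θ : ℂ) * exp ((m * θ : ℝ) * I) =
        (f (z, θ) : ℂ) * exp ((m * θ : ℝ) * I) - (f (z, θ + π) : ℂ) * exp ((m * θ : ℝ) * I) := by
      intro θ
      simp only [hg]
      push_cast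
      ring
    simp only [h1]
    rw [intervalIntegral.integral_sub (slice_exp_ii hf hb z m) (hii2 z m), hrev]
    ring
  have h := P.fb (reg p) hmeas hfin g (C₀ + C₀) hgm hgb hgp ?_
  · filter_upwards [h] with z hz
    filter_upwards [hz] with θ hθ
    simp only [hg] at hθ
    linarith
  · intro k hk
    rcases Nat.even_or_odd k with he | ho
    · obtain ⟨m, hm⟩ := he
      have hm2 : k = 2 * m := by omega
      subst hm2
      have hE := en_odd P hp hab hf hb hI m (by omega)
      unfold En at hE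
      have h1 : ((-1 : ℂ)) ^ (2 * m + 1) = -1 := Odd.neg_one_pow ⟨m, rfl⟩
      have h2 : ((-1 : ℂ)) ^ (2 * m - 1) = -1 := Odd.neg_one_pow ⟨m - 1, by omega⟩
      simp only [hcoef, h1, h2, norm_mul, mul_pow]
      rw [integral_const_mul, integral_const_mul, hE]
    · have h1 : ((-1 : ℂ)) ^ (k + 1) = 1 := Even.neg_one_pow ho.add_one
      have h2 : ((-1 : ℂ)) ^ (k - 1) = 1 := Even.neg_one_pow (by
        obtain ⟨m, hm⟩ := ho
        exact ⟨m, by omega⟩)
      simp only [hcoef, h1, h2, sub_self, zero_mul]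

/-- reversal of the direction: all measurable functions -/
theorem rev_all (P : Parts) {p : Fin (n + 3) → ℂ} (hp : IsConvexPolygon p) {a b : Fin (n + 3)}
    (hab : ∀ i, i ≠ a → i ≠ b → ang p i = π / 2) {f : ℂ × ℝ → ℝ}
    (hf : Measurable f) (hI : IsInvariantFun p f) :
    ∀ᵐ x : ℂ × ℝ, x.1 ∈ region p → f (x.1, x.2 + π) = f x := by
  set g : ℂ × ℝ → ℝ := fun x => Real.arctan (f x) with hg
  have hgm : Measurable g := Real.measurable_arctan.comp hf
  have hgb : ∀ x, |g x| ≤ π / 2 := fun x => by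
    rw [abs_le]
    exact ⟨(Real.neg_pi_div_two_lt_arctan _).le, (Real.arctan_lt_pi_div_two _).le⟩
  have hgI : IsInvariantFun p g :=
    { periodic := fun z θ => by simp only [hg]; rw [hI.periodic]
      free := fun z θ s h1 h2 => by simp only [hg]; rw [hI.free z θ s h1 h2]
      reflect := fun i y hy θ s r hs hr h1 h2 => by
        simp only [hg]; rw [hI.reflect i y hy θ s r hs hr h1 h2] }
  have h := rev_bdd P hp hab hgm hgb hgI
  have hopen : IsOpen (reg p) := (P.basic n p hp).2.1
  have hreg : region p = reg p := (P.hull n p hp).2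
  have hset : MeasurableSet {x : ℂ × ℝ | x.1 ∈ region p → f (x.1, x.2 + π) = f x} := by
    have : {x : ℂ × ℝ | x.1 ∈ region p → f (x.1, x.2 + π) = f x} =
        (Prod.fst ⁻¹' (region p))ᶜ ∪ {x | f (x.1, x.2 + π) = f x} := by
      ext x
      simp only [mem_ofPred_eq, mem_union, mem_compl_iff, mem_preimage]
      tauto
    rw [this]
    have h1 : Measurable (fun x : ℂ × ℝ => (x.1, x.2 + π)) :=
      measurable_fst.prodMk (measurable_snd.add measurable_const)
    refine (MeasurableSet.compl (measurable_fst ?_)).union (measurableSet_eq_fun (hf.comp h1) hf)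
    rw [hreg]
    exact hopen.measurableSet
  rw [Measure.volume_eq_prod, Measure.ae_prod_iff_ae_ae hset]
  rw [ae_restrict_iff' hopen.measurableSet] at h
  filter_upwards [h] with z hz
  by_cases hzr : z ∈ reg p
  · filter_upwards [hz hzr] with θ hθ _ using Real.arctan_injective hθ
  · refine ae_of_all _ fun θ hθ => ?_
    rw [hreg] at hθ
    exact absurd hθ hzr

/-- reversal of the direction: sets -/
theorem rev_sets (P : Parts) {p : Fin (n + 3) → ℂ} (hp : IsConvexPolygon p) {a b : Fin (n + 3)}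
    (hab : ∀ i, i ≠ a → i ≠ b → ang p i = π / 2) {A : Set (ℂ × ℝ)}
    (hA : MeasurableSet A) (hI : IsInvariant p A) :
    ∀ᵐ x : ℂ × ℝ, x.1 ∈ region p → ((x.1, x.2 + π) ∈ A ↔ x ∈ A) := by
  classical
  set f : ℂ × ℝ → ℝ := fun x => A.indicator (fun _ => (1:ℝ)) x with hf
  have hfm : Measurable f := measurable_const.indicator hA
  have hiff : ∀ x y : ℂ × ℝ, (x ∈ A ↔ y ∈ A) → f x = f y := by
    intro x y h
    simp only [hf]
    by_cases hx : x ∈ A
    · simp [hx, h.1 hx]
    · rw [indicator_of_notMem hx, indicator_of_notMem (fun hy => hx (h.2 hy))]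
  have hI' : IsInvariantFun p f :=
    { periodic := fun z θ => hiff _ _ (hI.periodic z θ)
      free := fun z θ s h1 h2 => hiff _ _ (hI.free z θ s h1 h2)
      reflect := fun i y hy θ s r hs hr h1 h2 => hiff _ _ (hI.reflect i y hy θ s r hs hr h1 h2) }
  filter_upwards [rev_all P hp hab hfm hI'] with x hx hr
  have h1 := hx hr
  simp only [hf] at h1
  by_cases h2 : x ∈ A <;> by_cases h3 : (x.1, x.2 + π) ∈ A
  · simp [h2, h3]
  · rw [indicator_of_mem h2, indicator_of_notMem h3] at h1; norm_num at h1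
  · rw [indicator_of_notMem h2, indicator_of_mem h3] at h1; norm_num at h1
  · simp [h2, h3]

end Run7.h907.BL
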