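import Pool.Agent.Run7.h907.BL.Mean
import Pool.Agent.N440.LB.All

set_option autoImplicit false

/-!
Position densities of invariant functions and sets: definitions and final form.
-/

namespace Run7.h907.BL

open Complex Set MeasureTheory Filter Topology Pool.Agent.W780.PG Pool.Agent.W780.BB
  Pool.Agent.TH103.BL Pool.Agent.N440.LB

open scoped Real ComplexConjugate

variable {n : ℕ}

/-- The mean over all directions of the function `f` of the state, at the position `z`. -/
noncomputable def posMean (f : ℂ × ℝ → ℝ) (z : ℂ) : ℝ :=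
  (∫ θ in (0 : ℝ)..(2 * π), f (z, θ)) / (2 * π)

/-- The mean of the function `f` of the state over the phase space. -/
noncomputable def phaseMean (p : Fin (n + 3) → ℂ) (f : ℂ × ℝ → ℝ) : ℝ :=
  (∫ z in region p, posMean f z) / volume.real (region p)

/-- The part of the directions `θ` for which the state `(z, θ)` belongs to `A`. -/
noncomputable def density (A : Set (ℂ × ℝ)) (z : ℂ) : ℝ :=
  volume.real {θ : ℝ | θ ∈ Ico 0 (2 * π) ∧ (z, θ) ∈ A} / (2 * π)

/-- The part of the phase space which belongs to `A`. -/
noncomputable def proportion (p : Fin (n + 3) → ℂ) (A : Set (ℂ × ℝ)) : ℝ :=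
  volume.real (phase p ∩ A) / volume.real (phase p)

theorem vol_pos (P : Parts) {p : Fin (n + 3) → ℂ} (hp : IsConvexPolygon p) :
    0 < volume.real (reg p) := by
  have h := P.basic n p hp
  exact ENNReal.toReal_pos (h.2.1.measure_pos volume h.2.2.2.2.2.1).ne' (reg_bounded P.hull hp).ne

/-- the theorem for functions -/
theorem final_funs (P : Parts) {p : Fin (n + 3) → ℂ} (hp : IsConvexPolygon p) {f : ℂ × ℝ → ℝ}
    (hf : Measurable f) (hb : ∃ C : ℝ, ∀ x, |f x| ≤ C) (hI : IsInvariantFun p f) :
    3 * ∫ z in region p, (posMean f z - phaseMean p f) ^ 2 ≤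
      ∫ z in region p, posMean (fun x => (f x - phaseMean p f) ^ 2) z := by
  obtain ⟨C₀, hb⟩ := hb
  have hfin := reg_bounded P.hull hp
  have hpi : (0 : ℝ) < 2 * π := by positivity
  have hV := vol_pos P hp
  set M := phaseMean p f with hM
  have hreg : region p = reg p := (P.hull n p hp).2
  set g : ℂ × ℝ → ℝ := fun x => f x - M with hg
  have hgm : Measurable g := hf.sub measurable_const
  have hgb : ∀ x, |g x| ≤ C₀ + |M| := fun x => (abs_sub _ _).trans (add_le_add (hb x) le_rfl)
  have hgI : IsInvariantFun p g :=
    { periodic := fun z θ => by simp only [hg]; rw [hI.periodic]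
      free := fun z θ s h1 h2 => by simp only [hg]; rw [hI.free z θ s h1 h2]
      reflect := fun i y hy θ s r hs hr h1 h2 => by
        simp only [hg]; rw [hI.reflect i y hy θ s r hs hr h1 h2] }
  have hsl : ∀ z, ∫ θ in (0 : ℝ)..(2 * π), g (z, θ) =
      (∫ θ in (0 : ℝ)..(2 * π), f (z, θ)) - 2 * π * M := by
    intro z
    simp only [hg]
    rw [intervalIntegral.integral_sub (slice_ii hf hb z) intervalIntegrable_const,
      intervalIntegral.integral_const]
    simp
  have hMe : ∫ z in reg p, ∫ θ in (0 : ℝ)..(2 * π), f (z, θ) = 2 * π * M * volume.real (reg p) := by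
    rw [hM]
    unfold phaseMean posMean
    rw [hreg, integral_div]
    field_simp
  have h0 : ∫ z in reg p, ∫ θ in (0 : ℝ)..(2 * π), g (z, θ) = 0 := by
    simp only [hsl]
    rw [integral_sub (mean_int hfin hf hb) (integrableOn_const hfin.ne), hMe]
    simp only [integral_const, smul_eq_mul, MeasurableSet.univ, measureReal_restrict_apply,
      univ_inter]
    ring
  have h := mean_zero P hp hgm hgb hgI h0
  rw [hreg]
  have e1 : ∀ z, (posMean f z - M) ^ 2 =
      (∫ θ in (0 : ℝ)..(2 * π), g (z, θ)) ^ 2 * (1 / (2 * π) ^ 2) := by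
    intro z
    rw [hsl]
    unfold posMean
    field_simp
  have e2 : ∀ z, posMean (fun x => (f x - M) ^ 2) z =
      (∫ θ in (0 : ℝ)..(2 * π), g (z, θ) ^ 2) * (1 / (2 * π)) := by
    intro z
    unfold posMean
    simp only [hg]
    ring
  simp only [e1, e2]
  rw [integral_mul_const, integral_mul_const]
  have h2 := mul_le_mul_of_nonneg_right h (by positivity : (0 : ℝ) ≤ 1 / (2 * π) ^ 2)
  have h3 : 2 * π * (∫ z in reg p, ∫ θ in (0 : ℝ)..(2 * π), g (z, θ) ^ 2) * (1 / (2 * π) ^ 2) =
      (∫ z in reg p, ∫ θ in (0 : ℝ)..(2 * π), g (z, θ) ^ 2) * (1 / (2 * π)) := by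
    field_simp
  rw [h3] at h2
  linarith

/-- the theorem for sets -/
theorem final_sets (P : Parts) {p : Fin (n + 3) → ℂ} (hp : IsConvexPolygon p)
    {A : Set (ℂ × ℝ)} (hA : MeasurableSet A) (hI : IsInvariant p A) :
    3 * ∫ z in region p, (density A z - proportion p A) ^ 2 ≤
      proportion p A * (1 - proportion p A) * volume.real (region p) := by
  classical
  have hfin := reg_bounded P.hull hp
  have hpi : (0 : ℝ) < 2 * π := by positivity
  have hV := vol_pos P hp
  have hreg : region p = reg p := (P.hull n p hp).2
  set f : ℂ × ℝ → ℝ := fun x => A.indicator (fun _ => (1:ℝ)) x with hf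
  have hfm : Measurable f := measurable_const.indicator hA
  have hfb : ∀ x, |f x| ≤ 1 := by
    intro x
    simp only [hf]
    by_cases h : x ∈ A <;> simp [h]
  have hiff : ∀ x y : ℂ × ℝ, (x ∈ A ↔ y ∈ A) → f x = f y := by
    intro x y h
    simp only [hf]
    by_cases hx : x ∈ A
    · simp [hx, h.1 hx]
    · rw [indicator_of_notMem hx, indicator_of_notMem (fun hy => hx (h.2 hy))]
  have hI' : IsInvariantFun p f :=
    { periodic := fun z θ => hiff _ _ (hI.periodic z θ)
      free := fun z θ s h1 h2 => hiff _ _ (hI.free z θ s h1 h2)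
      reflect := fun i y hy θ s r hs hr h1 h2 => hiff _ _ (hI.reflect i y hy θ s r hs hr h1 h2) }
  have hSm : ∀ z, MeasurableSet {θ : ℝ | θ ∈ Ico 0 (2 * π) ∧ (z, θ) ∈ A} := fun z =>
    measurableSet_Ico.inter (measurable_prodMk_left hA)
  have hdens : ∀ z, ∫ θ in (0 : ℝ)..(2 * π), f (z, θ) =
      volume.real {θ : ℝ | θ ∈ Ico 0 (2 * π) ∧ (z, θ) ∈ A} := by
    intro z
    rw [intervalIntegral.integral_of_le hpi.le, integral_Ioc_eq_integral_Ioo,
      ← integral_Ico_eq_integral_Ioo]
    have h1 : ∀ θ, f (z, θ) = ((fun θ => (z, θ)) ⁻¹' A).indicator (fun _ => (1 : ℝ)) θ := by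
      intro θ
      simp only [hf]
      by_cases h : (z, θ) ∈ A
      · rw [indicator_of_mem h, indicator_of_mem (by exact h)]
      · rw [indicator_of_notMem h, indicator_of_notMem (by exact h)]
    simp only [h1]
    rw [integral_indicator_const _ (measurable_prodMk_left hA)]
    simp only [smul_eq_mul, mul_one]
    rw [measureReal_restrict_apply (measurable_prodMk_left hA)]
    congr 1
    ext θ
    simp only [mem_inter_iff, mem_preimage, mem_ofPred_eq]
    tauto
  have hpos : ∀ z, posMean f z = density A z := fun z => by
    unfold posMean density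
    rw [hdens]
  have hmeasr : MeasurableSet (reg p) := (P.basic n p hp).2.1.measurableSet
  have hphase : volume.real (phase p) = volume.real (reg p) * (2 * π) := by
    unfold phase
    rw [hreg, Measure.volume_eq_prod, measureReal_prod_prod]
    congr 1
    simp [measureReal_def, Real.pi_pos.le]
  have hprod : volume.real (phase p ∩ A) =
      ∫ z in reg p, volume.real {θ : ℝ | θ ∈ Ico 0 (2 * π) ∧ (z, θ) ∈ A} := by
    have hm : MeasurableSet (phase p ∩ A) := by
      unfold phase
      rw [hreg]
      exact (hmeasr.prod measurableSet_Ico).inter hA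
    rw [measureReal_def, Measure.volume_eq_prod, Measure.prod_apply hm, ← integral_toReal]
    · rw [← integral_indicator hmeasr]
      refine integral_congr_ae (ae_of_all _ fun z => ?_)
      simp only
      by_cases hz : z ∈ reg p
      · rw [indicator_of_mem hz, measureReal_def]
        congr 2
        ext θ
        simp only [phase, hreg, mem_preimage, mem_inter_iff, mem_prod, mem_ofPred_eq]
        tauto
      · rw [indicator_of_notMem hz]
        have : (Prod.mk z ⁻¹' (phase p ∩ A)) = ∅ := by
          ext θ
          simp only [phase, hreg, mem_preimage, mem_inter_iff, mem_prod, mem_empty_iff_false,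
            iff_false]
          tauto
        rw [this]
        simp
    · exact (measurable_measure_prodMk_left hm).aemeasurable
    · refine ae_of_all _ fun z => ?_
      refine lt_of_le_of_lt (measure_mono (t := Ico 0 (2 * π)) ?_) measure_Ico_lt_top
      intro θ hθ
      exact hθ.1.2
  have hM : phaseMean p f = proportion p A := by
    unfold phaseMean proportion posMean
    rw [hreg, hphase, hprod, integral_div]
    simp only [hdens]
    field_simp
  have h := final_funs P hp hfm ⟨1, hfb⟩ hI'
  rw [hM] at h
  simp only [hpos] at h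
  refine h.trans (le_of_eq ?_)
  set a := proportion p A with ha
  have e1 : ∀ z, posMean (fun x => (f x - a) ^ 2) z = (1 - 2 * a) * density A z + a ^ 2 := by
    intro z
    have e2 : ∀ θ, (f (z, θ) - a) ^ 2 = (1 - 2 * a) * f (z, θ) + a ^ 2 := by
      intro θ
      have : f (z, θ) ^ 2 = f (z, θ) := by
        simp only [hf]
        by_cases h : (z, θ) ∈ A <;> simp [h]
      linear_combination this
    unfold posMean
    simp only [e2]
    rw [intervalIntegral.integral_add ((slice_ii hfm hfb z).const_mul _) intervalIntegrable_const,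
      intervalIntegral.integral_const_mul, intervalIntegral.integral_const, hdens]
    unfold density
    simp only [sub_zero, smul_eq_mul]
    field_simp
  simp only [e1]
  have hdi : IntegrableOn (density A) (reg p) := by
    have : density A = fun z => (∫ θ in (0 : ℝ)..(2 * π), f (z, θ)) / (2 * π) := by
      funext z
      rw [← hpos]; rfl
    rw [this]
    exact (mean_int hfin hfm hfb).div_const _
  rw [hreg, integral_add (hdi.const_mul _) (integrableOn_const hfin.ne), integral_const_mul]
  have hd : ∫ z in reg p, density A z = a * volume.real (reg p) := by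
    rw [← hM]
    unfold phaseMean
    rw [hreg]
    simp only [hpos]
    field_simp
  rw [hd]
  simp only [integral_const, smul_eq_mul, MeasurableSet.univ, measureReal_restrict_apply,
    univ_inter]
  ring

end Run7.h907.BL
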