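import Pool.Agent.Run7.h907.BL.Many

set_option autoImplicit false

/-!
Many invariant sets: final form.
-/

namespace Run7.h907.BL

open Complex Set MeasureTheory Filter Topology Pool.Agent.W780.PG Pool.Agent.W780.BB
  Pool.Agent.TH103.BL Pool.Agent.N440.LB

open scoped Real ComplexConjugate

variable {n M : ℕ}

/-- the harmonic bound for the sum -/
theorem sum_le_log (n M : ℕ) :
    ∑ s : Fin M, (1 : ℝ) / (2 * (s.val / (n + 1) : ℕ) + 1) ≤ (n + 1) * (1 + Real.log M) := by
  rw [Fin.sum_univ_eq_sum_range (fun s => (1 : ℝ) / (2 * (s / (n + 1) : ℕ) + 1)) M]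
  have h1 : ∀ s ∈ Finset.range M, (1 : ℝ) / (2 * (s / (n + 1) : ℕ) + 1) ≤
      (n + 1) * ((((s + 1 : ℕ) : ℚ)⁻¹ : ℚ) : ℝ) := by
    intro s _
    have h2 : s + 1 ≤ (n + 1) * (2 * (s / (n + 1)) + 1) := by
      have h3 := Nat.div_add_mod s (n + 1)
      have h4 := Nat.mod_lt s (Nat.succ_pos n)
      have h5 : (n + 1) * (2 * (s / (n + 1)) + 1) =
        (n + 1) * (s / (n + 1)) + (n + 1) * (s / (n + 1)) + (n + 1) := by ring
      rw [h5]
      have h6 : s % (n + 1) < n + 1 := h4
      omega
    have h7 : ((s : ℝ) + 1) ≤ (n + 1) * (2 * ((s / (n + 1) : ℕ) : ℝ) + 1) := by exact_mod_cast h2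
    have h8 : (0 : ℝ) < 2 * ((s / (n + 1) : ℕ) : ℝ) + 1 := by positivity
    push_cast
    rw [← div_eq_mul_inv, div_le_div_iff₀ h8 (by positivity)]
    linarith
  refine (Finset.sum_le_sum h1).trans ?_
  rw [← Finset.mul_sum]
  refine mul_le_mul_of_nonneg_left ?_ (by positivity)
  have h2 := harmonic_le_one_add_log M
  unfold harmonic at h2
  push_cast at h2 ⊢
  exact h2

theorem ind_meas {A : Set (ℂ × ℝ)} (hA : MeasurableSet A) (c : ℝ) :
    Measurable (fun x : ℂ × ℝ => A.indicator (fun _ => c) x) := measurable_const.indicator hA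

theorem ind_inv {p : Fin (n + 3) → ℂ} {A : Set (ℂ × ℝ)} (hI : IsInvariant p A) (c : ℝ) :
    IsInvariantFun p (fun x => A.indicator (fun _ => c) x) := by
  have hiff : ∀ x y : ℂ × ℝ, (x ∈ A ↔ y ∈ A) →
      A.indicator (fun _ => c) x = A.indicator (fun _ => c) y := by
    intro x y h
    by_cases hx : x ∈ A
    · rw [indicator_of_mem hx, indicator_of_mem (h.1 hx)]
    · rw [indicator_of_notMem hx, indicator_of_notMem (fun hy => hx (h.2 hy))]
  exact
    { periodic := fun z θ => hiff _ _ (hI.periodic z θ)
      free := fun z θ s h1 h2 => hiff _ _ (hI.free z θ s h1 h2)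
      reflect := fun i y hy θ s r hs hr h1 h2 => hiff _ _ (hI.reflect i y hy θ s r hs hr h1 h2) }

theorem posMean_ind {A : Set (ℂ × ℝ)} (hA : MeasurableSet A) (c : ℝ) (z : ℂ) :
    posMean (fun x => A.indicator (fun _ => c) x) z = c * density A z := by
  have hpi : (0 : ℝ) < 2 * π := by positivity
  unfold posMean density
  rw [intervalIntegral.integral_of_le hpi.le, integral_Ioc_eq_integral_Ioo,
    ← integral_Ico_eq_integral_Ioo]
  have h1 : ∀ θ, A.indicator (fun _ => c) (z, θ) =
      ((fun θ => (z, θ)) ⁻¹' A).indicator (fun _ => c) θ := by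
    intro θ
    by_cases h : (z, θ) ∈ A
    · rw [indicator_of_mem h, indicator_of_mem (by exact h)]
    · rw [indicator_of_notMem h, indicator_of_notMem (by exact h)]
  simp only [h1]
  rw [integral_indicator_const _ (measurable_prodMk_left hA)]
  simp only [smul_eq_mul]
  rw [measureReal_restrict_apply (measurable_prodMk_left hA)]
  have h2 : (fun θ => (z, θ)) ⁻¹' A ∩ Ico 0 (2 * π) = {θ : ℝ | θ ∈ Ico 0 (2 * π) ∧ (z, θ) ∈ A} := by
    ext θ
    simp only [mem_inter_iff, mem_preimage, mem_ofPred_eq]
    tauto
  rw [show Prod.mk z ⁻¹' A ∩ Ico 0 (2 * π) = {θ : ℝ | θ ∈ Ico 0 (2 * π) ∧ (z, θ) ∈ A} from h2]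
  ring

theorem int_density (P : Parts) {p : Fin (n + 3) → ℂ} (hp : IsConvexPolygon p)
    {A : Set (ℂ × ℝ)} (hA : MeasurableSet A) :
    ∫ z in region p, density A z = proportion p A * volume.real (region p) := by
  have hpi : (0 : ℝ) < 2 * π := by positivity
  have hV := vol_pos P hp
  have hreg : region p = reg p := (P.hull n p hp).2
  have hmeasr : MeasurableSet (reg p) := (P.basic n p hp).2.1.measurableSet
  have hphase : volume.real (phase p) = volume.real (reg p) * (2 * π) := by
    unfold phase
    rw [hreg, Measure.volume_eq_prod, measureReal_prod_prod]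
    congr 1
    simp [measureReal_def, Real.pi_pos.le]
  have hprod : volume.real (phase p ∩ A) =
      ∫ z in reg p, volume.real {θ : ℝ | θ ∈ Ico 0 (2 * π) ∧ (z, θ) ∈ A} := by
    have hm : MeasurableSet (phase p ∩ A) := by
      unfold phase
      rw [hreg]
      exact (hmeasr.prod measurableSet_Ico).inter hA
    rw [measureReal_def, Measure.volume_eq_prod, Measure.prod_apply hm, ← integral_toReal]
    · rw [← integral_indicator hmeasr]
      refine integral_congr_ae (ae_of_all _ fun z => ?_)
      simp only
      by_cases hz : z ∈ reg p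
      · rw [indicator_of_mem hz, measureReal_def]
        congr 2
        ext θ
        simp only [phase, hreg, mem_preimage, mem_inter_iff, mem_prod, mem_ofPred_eq]
        tauto
      · rw [indicator_of_notMem hz]
        have : (Prod.mk z ⁻¹' (phase p ∩ A)) = ∅ := by
          ext θ
          simp only [phase, hreg, mem_preimage, mem_inter_iff, mem_prod, mem_empty_iff_false,
            iff_false]
          tauto
        rw [this]
        simp
    · exact (measurable_measure_prodMk_left hm).aemeasurable
    · refine ae_of_all _ fun z => ?_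
      refine lt_of_le_of_lt (measure_mono (t := Ico 0 (2 * π)) ?_) measure_Ico_lt_top
      intro θ hθ
      exact hθ.1.2
  unfold proportion density
  rw [integral_div, hphase, hprod, hreg]
  field_simp

/-- many invariant sets -/
theorem many_sets (P : Parts) {p : Fin (n + 3) → ℂ} (hp : IsConvexPolygon p)
    (A : Fin M → Set (ℂ × ℝ)) (hA : ∀ j, MeasurableSet (A j)) (hI : ∀ j, IsInvariant p (A j))
    (hd : ∀ i j, i ≠ j → Disjoint (A i) (A j)) (hpos : ∀ j, 0 < proportion p (A j)) :
    ∫ z in region p, ∑ j, density (A j) z ^ 2 / proportion p (A j) ≤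
      volume.real (region p) * ∑ s : Fin M, (1 : ℝ) / (2 * (s.val / (n + 1) : ℕ) + 1) := by
  set c : Fin M → ℝ := fun j => 1 / √(proportion p (A j)) with hc
  have hc2 : ∀ j, c j ^ 2 = 1 / proportion p (A j) := by
    intro j
    simp only [hc]
    rw [div_pow, Real.sq_sqrt (hpos j).le, one_pow]
  have h := many_funs P hp (fun j x => (A j).indicator (fun _ => c j) x)
    (fun j => ind_meas (hA j) (c j))
    (fun j => ⟨|c j|, fun x => by
      by_cases hx : x ∈ A j
      · rw [indicator_of_mem hx]
      · rw [indicator_of_notMem hx, abs_zero]; exact abs_nonneg _⟩)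
    (fun j => ind_inv (hI j) (c j)) ?_
  · refine le_trans (le_of_eq ?_) h
    refine integral_congr_ae (ae_of_all _ fun z => ?_)
    simp only
    refine Finset.sum_congr rfl fun j _ => ?_
    rw [posMean_ind (hA j), mul_pow, hc2]
    ring
  · intro i j
    by_cases hij : i = j
    · subst hij
      rw [if_pos rfl]
      have e1 : (fun x => (A i).indicator (fun _ => c i) x * (A i).indicator (fun _ => c i) x) =
          fun x => (A i).indicator (fun _ => c i ^ 2) x := by
        funext x
        by_cases hx : x ∈ A i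
        · simp only [indicator_of_mem hx]; ring
        · simp only [indicator_of_notMem hx]; ring
      rw [e1]
      simp only [posMean_ind (hA i)]
      rw [integral_const_mul, int_density P hp (hA i), hc2]
      have := (hpos i).ne'
      field_simp
    · rw [if_neg hij]
      have e1 : (fun x => (A i).indicator (fun _ => c i) x * (A j).indicator (fun _ => c j) x) =
          fun _ => (0 : ℝ) := by
        funext x
        by_cases hx : x ∈ A i
        · have hx2 : x ∉ A j := fun h2 => (Set.disjoint_left.1 (hd i j hij)) hx h2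
          rw [indicator_of_notMem hx2, mul_zero]
        · rw [indicator_of_notMem hx, zero_mul]
      rw [e1]
      simp [posMean]

end Run7.h907.BL
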