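import Pool.Agent.Run7.h907.BL.Tri
import Pool.Agent.Run7.h907.BL.FinA

set_option autoImplicit false

/-!
Triangles: final forms; the triangle with the sides 3, 4, 5.
-/

namespace Run7.h907.BL

open Complex Set MeasureTheory Filter Topology Pool.Agent.W780.PG Pool.Agent.W780.BB
  Pool.Agent.TH103.BL Pool.Agent.N440.LB

open scoped Real ComplexConjugate

variable {n : ℕ}

theorem mean_zero_iff (P : Parts) {p : Fin (n + 3) → ℂ} (hp : IsConvexPolygon p) {f : ℂ × ℝ → ℝ}
    (h : phaseMean p f = 0) : ∫ z in reg p, ∫ θ in (0 : ℝ)..(2 * π), f (z, θ) = 0 := by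
  have hpi : (0 : ℝ) < 2 * π := by positivity
  have hV := vol_pos P hp
  have hreg : region p = reg p := (P.hull n p hp).2
  unfold phaseMean posMean at h
  rw [hreg, integral_div, div_div, div_eq_zero_iff] at h
  rcases h with h | h
  · exact h
  · exact absurd h (by positivity)

/-- the sign rule in terms of the energies -/
theorem tri_final (P : Parts) {p : Fin (0 + 3) → ℂ} (hp : IsConvexPolygon p) {f : ℂ × ℝ → ℝ}
    (hf : Measurable f) (hb : ∃ C : ℝ, ∀ x, |f x| ≤ C) (hI : IsInvariantFun p f) :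
    (∀ k : ℕ, 1 ≤ k → 0 ≤ (-1) ^ (k + 1) *
      (Real.sin (k * ang p 0) * Real.sin (k * ang p 1) * Real.sin (k * ang p 2)) *
      (energy p f (k - 1) - energy p f (k + 1))) ∧
    (∀ k : ℕ, 1 ≤ k →
      Real.sin (k * ang p 0) * Real.sin (k * ang p 1) * Real.sin (k * ang p 2) = 0 →
      energy p f (k - 1) = energy p f (k + 1)) ∧
    (phaseMean p f = 0 → energy p f 0 = energy p f 2) := by
  obtain ⟨C₀, hb⟩ := hb
  have hc : (0 : ℝ) < (2 * π) ^ 2 := by positivity
  refine ⟨fun k hk => ?_, fun k hk h => ?_, fun h => ?_⟩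
  · have h1 := (sign_rule P hp hf hb hI k hk).1
    rw [en_energy P hp, en_energy P hp, ← mul_sub, mul_left_comm] at h1
    exact nonneg_of_mul_nonneg_right h1 hc
  · have h1 := (sign_rule P hp hf hb hI k hk).2 h
    rw [en_energy P hp, en_energy P hp] at h1
    exact mul_left_cancel₀ hc.ne' h1
  · have h1 := tri_zero P hp hf hb hI (mean_zero_iff P hp h)
    rw [en_energy P hp, en_energy P hp] at h1
    exact mul_left_cancel₀ hc.ne' h1

/-- functions, with the factor `1 / 5` -/
theorem fifth_funs (P : Parts) {p : Fin (0 + 3) → ℂ} (hp : IsConvexPolygon p)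
    (h3 : Real.sin (3 * ang p 0) * Real.sin (3 * ang p 1) * Real.sin (3 * ang p 2) < 0)
    {f : ℂ × ℝ → ℝ}
    (hf : Measurable f) (hb : ∃ C : ℝ, ∀ x, |f x| ≤ C) (hI : IsInvariantFun p f) :
    5 * ∫ z in region p, (posMean f z - phaseMean p f) ^ 2 ≤
      ∫ z in region p, posMean (fun x => (f x - phaseMean p f) ^ 2) z := by
  obtain ⟨C₀, hb⟩ := hb
  have hfin := reg_bounded P.hull hp
  have hpi : (0 : ℝ) < 2 * π := by positivity
  have hV := vol_pos P hp
  set M := phaseMean p f with hM
  have hreg : region p = reg p := (P.hull 0 p hp).2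
  set g : ℂ × ℝ → ℝ := fun x => f x - M with hg
  have hgm : Measurable g := hf.sub measurable_const
  have hgb : ∀ x, |g x| ≤ C₀ + |M| := fun x => (abs_sub _ _).trans (add_le_add (hb x) le_rfl)
  have hgI : IsInvariantFun p g :=
    { periodic := fun z θ => by simp only [hg]; rw [hI.periodic]
      free := fun z θ s h1 h2 => by simp only [hg]; rw [hI.free z θ s h1 h2]
      reflect := fun i y hy θ s r hs hr h1 h2 => by
        simp only [hg]; rw [hI.reflect i y hy θ s r hs hr h1 h2] }
  have hsl : ∀ z, ∫ θ in (0 : ℝ)..(2 * π), g (z, θ) =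
      (∫ θ in (0 : ℝ)..(2 * π), f (z, θ)) - 2 * π * M := by
    intro z
    simp only [hg]
    rw [intervalIntegral.integral_sub (slice_ii hf hb z) intervalIntegrable_const,
      intervalIntegral.integral_const]
    simp
  have hMe : ∫ z in reg p, ∫ θ in (0 : ℝ)..(2 * π), f (z, θ) = 2 * π * M * volume.real (reg p) := by
    rw [hM]
    unfold phaseMean posMean
    rw [hreg, integral_div]
    field_simp
  have h0 : ∫ z in reg p, ∫ θ in (0 : ℝ)..(2 * π), g (z, θ) = 0 := by
    simp only [hsl]
    rw [integral_sub (mean_int hfin hf hb) (integrableOn_const hfin.ne), hMe]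
    simp only [integral_const, smul_eq_mul, MeasurableSet.univ, measureReal_restrict_apply,
      univ_inter]
    ring
  have h := fifth P hp h3 hgm hgb hgI h0
  rw [hreg]
  have e1 : ∀ z, (posMean f z - M) ^ 2 =
      (∫ θ in (0 : ℝ)..(2 * π), g (z, θ)) ^ 2 * (1 / (2 * π) ^ 2) := by
    intro z
    rw [hsl]
    unfold posMean
    field_simp
  have e2 : ∀ z, posMean (fun x => (f x - M) ^ 2) z =
      (∫ θ in (0 : ℝ)..(2 * π), g (z, θ) ^ 2) * (1 / (2 * π)) := by
    intro z
    unfold posMean
    simp only [hg]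
    ring
  simp only [e1, e2]
  rw [integral_mul_const, integral_mul_const]
  have h2 := mul_le_mul_of_nonneg_right h (by positivity : (0 : ℝ) ≤ 1 / (2 * π) ^ 2)
  have h3 : 2 * π * (∫ z in reg p, ∫ θ in (0 : ℝ)..(2 * π), g (z, θ) ^ 2) * (1 / (2 * π) ^ 2) =
      (∫ z in reg p, ∫ θ in (0 : ℝ)..(2 * π), g (z, θ) ^ 2) * (1 / (2 * π)) := by
    field_simp
  rw [h3] at h2
  linarith

/-- sets, with the factor `1 / 5` -/
theorem fifth_sets (P : Parts) {p : Fin (0 + 3) → ℂ} (hp : IsConvexPolygon p)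
    (h3 : Real.sin (3 * ang p 0) * Real.sin (3 * ang p 1) * Real.sin (3 * ang p 2) < 0)
    {A : Set (ℂ × ℝ)} (hA : MeasurableSet A) (hI : IsInvariant p A) :
    5 * ∫ z in region p, (density A z - proportion p A) ^ 2 ≤
      proportion p A * (1 - proportion p A) * volume.real (region p) := by
  have hpi : (0 : ℝ) < 2 * π := by positivity
  have hfin := reg_bounded P.hull hp
  have hV := vol_pos P hp
  have hreg : region p = reg p := (P.hull 0 p hp).2
  have hfm := ind_meas hA 1
  have hfb : ∀ x, |A.indicator (fun _ => (1 : ℝ)) x| ≤ 1 := by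
    intro x
    by_cases h : x ∈ A <;> simp [h]
  have hM : phaseMean p (fun x => A.indicator (fun _ => (1 : ℝ)) x) = proportion p A := by
    unfold phaseMean
    simp only [posMean_ind hA, one_mul]
    rw [int_density P hp hA, hreg]
    field_simp
  have h := fifth_funs P hp h3 hfm ⟨1, hfb⟩ (ind_inv hI 1)
  rw [hM] at h
  simp only [posMean_ind hA, one_mul] at h
  refine h.trans (le_of_eq ?_)
  set a := proportion p A with ha
  have e1 : ∀ z, posMean (fun x => (A.indicator (fun _ => (1 : ℝ)) x - a) ^ 2) z =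
      (1 - 2 * a) * density A z + a ^ 2 := by
    intro z
    have e2 : ∀ θ, (A.indicator (fun _ => (1 : ℝ)) (z, θ) - a) ^ 2 =
        (1 - 2 * a) * A.indicator (fun _ => (1 : ℝ)) (z, θ) + a ^ 2 := by
      intro θ
      have : A.indicator (fun _ => (1 : ℝ)) (z, θ) ^ 2 = A.indicator (fun _ => (1 : ℝ)) (z, θ) := by
        by_cases h : (z, θ) ∈ A <;> simp [h]
      linear_combination this
    have e3 := posMean_ind hA 1 z
    unfold posMean at e3 ⊢
    simp only [e2]
    rw [intervalIntegral.integral_add ((slice_ii hfm hfb z).const_mul _) intervalIntegrable_const,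
      intervalIntegral.integral_const_mul, intervalIntegral.integral_const, add_div, mul_div_assoc,
      e3]
    simp only [sub_zero, smul_eq_mul]
    field_simp
  simp only [e1]
  have hdi : IntegrableOn (density A) (reg p) := by
    have : density A = fun z =>
        (∫ θ in (0 : ℝ)..(2 * π), A.indicator (fun _ => (1 : ℝ)) (z, θ)) / (2 * π) := by
      funext z
      have e3 := posMean_ind hA 1 z
      unfold posMean at e3
      rw [e3, one_mul]
    rw [this]
    exact (mean_int hfin hfm hfb).div_const _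
  rw [hreg, integral_add (hdi.const_mul _) (integrableOn_const hfin.ne), integral_const_mul]
  have hd := int_density P hp hA
  rw [hreg] at hd
  rw [hd]
  simp only [integral_const, smul_eq_mul, MeasurableSet.univ, measureReal_restrict_apply,
    univ_inter]
  ring

/-- The triangle with the vertices `0`, `4`, `3 i`; its sides are `4`, `5`, `3`. -/
def T345 : Fin (0 + 3) → ℂ := ![0, 4, 3 * I]

theorem t0 : T345 0 = 0 := rfl
theorem t1 : T345 1 = 4 := rfl
theorem t2 : T345 2 = 3 * I := rfl

theorem t345_convex : IsConvexPolygon T345 := by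
  constructor
  intro i j h1 h2
  have e01 : (0 : Fin (0 + 3)) + 1 = 1 := rfl
  have e12 : (1 : Fin (0 + 3)) + 1 = 2 := rfl
  have e20 : (2 : Fin (0 + 3)) + 1 = 0 := rfl
  have hi : i = 0 ∨ i = 1 ∨ i = 2 := by
    fin_cases i <;> simp
  have hj : j = 0 ∨ j = 1 ∨ j = 2 := by
    fin_cases j <;> simp
  rcases hi with rfl | rfl | rfl <;> rcases hj with rfl | rfl | rfl
  · exact absurd rfl h1
  · exact absurd rfl h2
  · rw [e01]; simp [lft, t0, t1, t2]
  · rw [e12]; simp [lft, t0, t1, t2]
  · exact absurd rfl h1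
  · exact absurd rfl h2
  · exact absurd rfl h2
  · rw [e20]; simp [lft, t0, t1, t2]
  · exact absurd rfl h1

theorem t345_dist : ‖T345 1 - T345 0‖ = 4 ∧ ‖T345 2 - T345 1‖ = 5 ∧ ‖T345 0 - T345 2‖ = 3 := by
  refine ⟨by simp [t0, t1], ?_, by simp [t0, t2]⟩
  rw [t1, t2]
  have h : ‖3 * I - 4‖ ^ 2 = 5 ^ 2 := by
    rw [← normSq_eq_norm_sq, normSq_apply]
    simp
    norm_num
  exact (pow_left_inj₀ (norm_nonneg _) (by norm_num) two_ne_zero).1 h

theorem sin_three (x : ℝ) : Real.sin (3 * x) = 3 * Real.sin x - 4 * Real.sin x ^ 3 :=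
  Real.sin_three_mul x

theorem t345_sin : Real.sin (ang T345 1) = 3 / 5 ∧ Real.sin (ang T345 2) = 4 / 5 ∧
    Real.sin (ang T345 0) = 1 ∧ ang T345 0 = π / 2 := by
  obtain ⟨d0, d1, d2⟩ := t345_dist
  have e01 : (0 : Fin (0 + 3)) + 1 = 1 := rfl
  have e12 : (1 : Fin (0 + 3)) + 1 = 2 := rfl
  have e20 : (2 : Fin (0 + 3)) + 1 = 0 := rfl
  have h1 := ang_cos_sin t345_convex 0
  have h2 := ang_cos_sin t345_convex 1
  have h3 := ang_cos_sin t345_convex 2
  rw [e01, e12, d0, d1] at h1
  rw [e12, e20, d1, d2] at h2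
  rw [e20, e01, d2, d0] at h3
  have k1 : (conj (T345 1 - T345 0) * (T345 2 - T345 1)).im = 12 := by
    simp [t0, t1, t2]; norm_num
  have k2 : (conj (T345 2 - T345 1) * (T345 0 - T345 2)).im = 12 := by
    simp [t0, t1, t2]; norm_num
  have k3 : (conj (T345 0 - T345 2) * (T345 1 - T345 0)).im = 12 := by
    simp [t0, t1, t2]; norm_num
  have k4 : (conj (T345 0 - T345 2) * (T345 1 - T345 0)).re = 0 := by
    simp [t0, t1, t2]
  rw [k1] at h1
  rw [k2] at h2
  rw [k3, k4] at h3
  refine ⟨by linarith [h1.2], by linarith [h2.2], by linarith [h3.2], ?_⟩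
  have hc : Real.cos (ang T345 0) = 0 := by linarith [h3.1]
  have ha : ang T345 0 = Real.arccos (Real.cos (ang T345 0)) :=
    (Real.arccos_cos (EuclideanGeometry.angle_nonneg _ _ _)
      (EuclideanGeometry.angle_le_pi _ _ _)).symm
  rw [ha, hc, Real.arccos_zero]

theorem t345_neg : Real.sin (3 * ang T345 0) * Real.sin (3 * ang T345 1) *
    Real.sin (3 * ang T345 2) < 0 := by
  obtain ⟨h1, h2, h3, -⟩ := t345_sin
  rw [sin_three, sin_three, sin_three, h1, h2, h3]
  norm_num

end Run7.h907.BL
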