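import Pool.Agent.Run7.h907.BL.Side
import Pool.Agent.N440.LB.Core

set_option autoImplicit false

/-!
The energy transfer between the angular modes of an invariant function.
-/

namespace Run7.h907.BL

open Complex Set MeasureTheory Filter Topology Pool.Agent.W780.PG Pool.Agent.W780.BB
  Pool.Agent.TH103.BL Pool.Agent.N440.LB

open scoped Real ComplexConjugate

variable {n : ℕ}

/-- the energy of the angular mode number `m` -/
noncomputable def En (p : Fin (n + 3) → ℂ) (f : ℂ × ℝ → ℝ) (m : ℕ) : ℝ :=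
  ∫ z in reg p, ‖∫ θ in (0 : ℝ)..(2 * π), (f (z, θ) : ℂ) * exp ((m * θ : ℝ) * I)‖ ^ 2

/-- the identity for the Fourier coefficients -/
theorem ident (hI1 : S_I1) (hDIV : S_DIV) (hGF : S_GF) (hSY : S_SY)
    {p : Fin (n + 3) → ℂ} (hp : IsConvexPolygon p) (hfin : volume (reg p) < ⊤)
    {f : ℂ × ℝ → ℝ} {C : ℝ} {F : ℝ → ℝ → ℝ} (hF : Chord p f C F) (k : ℕ) :
    ∫ z in reg p, ∫ θ' in (0 : ℝ)..(2 * π), F θ' (off θ' z) * Dk F k z θ' =
      ∑ i, (Phi F k (p i) * conj (Phi F k (p (i + 1)))).im := by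
  have hC : 0 ≤ C := (abs_nonneg _).trans (hF.bdd 0 0)
  have h1 : ∀ θ', ∫ z in reg p, F θ' (off θ' z) * Dk F k z θ' =
    ∑ i, off θ' (p (i + 1) - p i) *
      ∫ t in (0 : ℝ)..1, F θ' (off θ' (pt p i t)) * Ak F k (pt p i t) θ' :=
    fun θ' => hI1 hDIV hGF n p hp F C hF.meas hF.bdd k θ'
  have h2 : ∀ i, ∫ θ' in (0 : ℝ)..(2 * π), off θ' (p (i + 1) - p i) *
      ∫ t in (0 : ℝ)..1, F θ' (off θ' (pt p i t)) * Ak F k (pt p i t) θ' =
      (Phi F k (p i) * conj (Phi F k (p (i + 1)))).im :=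
    fun i => (side hGF hSY p i F C hF.meas hF.bdd hF.per (hF.refl i) k).2
  have hGm := (hGF F C hF.meas hF.bdd).1
  have hGb := (hGF F C hF.meas hF.bdd).2.1
  have hpt : ∀ i, Continuous (pt p i) := by
    intro i; unfold pt; fun_prop
  -- measurability of the sides
  have hAm : ∀ i, Measurable (fun x : ℝ × ℝ => F x.1 (off x.1 (pt p i x.2)) * Ak F k (pt p i x.2) x.1) := by
    intro i
    have e1 : Measurable (fun x : ℝ × ℝ => F x.1 (off x.1 (pt p i x.2))) :=
      chord_meas' hF.meas ((hpt i).measurable.comp measurable_snd) measurable_fst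
    refine e1.mul ?_
    unfold Ak
    simp only [intervalIntegral.integral_of_le (by positivity : (0:ℝ) ≤ 2 * π)]
    have : Measurable (fun y : (ℝ × ℝ) × ℝ => Real.sin (k * (y.2 - y.1.1)) * G F (pt p i y.1.2) y.2) := by
      have e2 : Measurable (fun y : (ℝ × ℝ) × ℝ => Real.sin (k * (y.2 - y.1.1))) := by
        have : Continuous (fun y : (ℝ × ℝ) × ℝ => Real.sin (k * (y.2 - y.1.1))) := by fun_prop
        exact this.measurable
      have e3 : Measurable (fun y : (ℝ × ℝ) × ℝ => (pt p i y.1.2, y.2)) :=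
        ((hpt i).comp (continuous_snd.comp continuous_fst)).measurable.prodMk measurable_snd
      have e4 : Measurable (fun y : (ℝ × ℝ) × ℝ => G F (pt p i y.1.2) y.2) :=
        Measurable.comp (g := fun x : ℂ × ℝ => G F x.1 x.2)
          (f := fun y : (ℝ × ℝ) × ℝ => (pt p i y.1.2, y.2)) hGm e3
      exact e2.mul e4
    exact (this.stronglyMeasurable.integral_prod_right (ν := volume.restrict (Ioc 0 (2 * π)))).measurable
  have hAb : ∀ i, ∃ B : ℝ, 0 ≤ B ∧ ∀ t ∈ Icc (0:ℝ) 1, ∀ θ', |F θ' (off θ' (pt p i t)) * Ak F k (pt p i t) θ'| ≤ B := by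
    intro i
    obtain ⟨R, hR⟩ := isCompact_Icc.exists_bound_of_continuousOn (s := Icc (0:ℝ) 1) (f := pt p i)
      (hpt i).continuousOn
    have hR0 : 0 ≤ R := (norm_nonneg _).trans (hR 0 (by simp))
    refine ⟨C * (C * R * (2 * π)), by positivity, fun t ht θ' => ?_⟩
    rw [abs_mul]
    refine mul_le_mul (hF.bdd _ _) ?_ (abs_nonneg _) hC
    unfold Ak
    have := intervalIntegral.norm_integral_le_of_norm_le_const (a := 0) (b := 2 * π) (C := C * R)
      (f := fun θ => Real.sin (k * (θ - θ')) * G F (pt p i t) θ) ?_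
    · rw [Real.norm_eq_abs] at this
      refine this.trans ?_
      rw [sub_zero, abs_of_nonneg (by positivity)]
    · intro θ _
      rw [Real.norm_eq_abs, abs_mul]
      have h1 := Real.abs_sin_le_one (k * (θ - θ'))
      have h3 := hGb (pt p i t) θ
      have h4 := hR t ht
      have h5 := abs_nonneg (Real.sin (k * (θ - θ')))
      calc _ ≤ 1 * (C * ‖pt p i t‖) := by gcongr
        _ ≤ 1 * (C * R) := by gcongr
        _ = _ := by ring
  have h3 : ∫ θ' in (0 : ℝ)..(2 * π), ∫ z in reg p, F θ' (off θ' z) * Dk F k z θ' =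
      ∑ i, (Phi F k (p i) * conj (Phi F k (p (i + 1)))).im := by
    simp only [h1]
    rw [intervalIntegral.integral_finsetSum]
    · simp [h2]
    · intro i _
      obtain ⟨B, hB0, hB⟩ := hAb i
      have hoffc : Continuous (fun θ' : ℝ => off θ' (p (i + 1) - p i)) :=
        off_cont.comp (continuous_id.prodMk continuous_const)
      refine IntervalIntegrable.continuousOn_mul (g := fun θ' : ℝ => off θ' (p (i + 1) - p i)) ?_ hoffc.continuousOn
      rw [intervalIntegrable_iff]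
      have hm : Measurable (fun θ' : ℝ => ∫ t in (0 : ℝ)..1, F θ' (off θ' (pt p i t)) * Ak F k (pt p i t) θ') := by
        simp only [intervalIntegral.integral_of_le (zero_le_one : (0:ℝ) ≤ 1)]
        exact ((hAm i).stronglyMeasurable.integral_prod_right (ν := volume.restrict (Ioc 0 1))).measurable
      refine Measure.integrableOn_of_bounded (M := B)
        (by rw [uIoc_of_le (by positivity)]; exact measure_Ioc_lt_top.ne) hm.aestronglyMeasurable ?_
      refine ae_of_all _ fun θ' => ?_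
      have := intervalIntegral.norm_integral_le_of_norm_le_const (a := 0) (b := 1) (C := B)
        (f := fun t => F θ' (off θ' (pt p i t)) * Ak F k (pt p i t) θ') ?_
      · simpa using this
      · intro t ht
        rw [uIoc_of_le zero_le_one] at ht
        exact hB t ⟨ht.1.le, ht.2⟩ θ'
  refine Eq.trans ?_ h3
  simp only [intervalIntegral.integral_of_le (by positivity : (0:ℝ) ≤ 2 * π)]
  have : IsFiniteMeasure (volume.restrict (reg p)) := ⟨by simpa using hfin⟩
  refine integral_integral_swap ?_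
  have hm : Measurable (Function.uncurry fun (z : ℂ) (θ' : ℝ) => F θ' (off θ' z) * Dk F k z θ') :=
    (chord_meas hF.meas).mul (Dk_meas hF.meas k)
  refine Integrable.of_bound (C := C * (C * (2 * π))) hm.aestronglyMeasurable (ae_of_all _ fun x => ?_)
  rw [Real.norm_eq_abs]
  simp only [Function.uncurry]
  rw [abs_mul]
  exact mul_le_mul (hF.bdd _ _) (Dk_bdd hF.bdd k _ _) (abs_nonneg _) hC

theorem en_integrable {p : Fin (n + 3) → ℂ} (hfin : volume (reg p) < ⊤) {f : ℂ × ℝ → ℝ}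
    (hfm : Measurable f) {C₀ : ℝ} (hfb : ∀ x, |f x| ≤ C₀) (m : ℕ) :
    IntegrableOn (fun z => ‖∫ θ in (0 : ℝ)..(2 * π), (f (z, θ) : ℂ) * exp ((m * θ : ℝ) * I)‖ ^ 2)
      (reg p) := by
  have hpi : (0:ℝ) ≤ 2 * π := by positivity
  have hm : Measurable (fun x : ℂ × ℝ => (f (x.1, x.2) : ℂ) * exp ((m * x.2 : ℝ) * I)) := by
    have e1 : Measurable (fun x : ℂ × ℝ => (f x : ℂ)) := measurable_ofReal.comp hfm
    have e2 : Continuous (fun x : ℂ × ℝ => exp ((m * x.2 : ℝ) * I)) := by fun_prop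
    exact e1.mul e2.measurable
  have hm2 : Measurable (fun z : ℂ => ∫ θ in (0 : ℝ)..(2 * π), (f (z, θ) : ℂ) * exp ((m * θ : ℝ) * I)) := by
    simp only [intervalIntegral.integral_of_le hpi]
    exact (hm.stronglyMeasurable.integral_prod_right (ν := volume.restrict (Ioc 0 (2 * π)))).measurable
  refine Measure.integrableOn_of_bounded (M := (C₀ * (2 * π)) ^ 2) hfin.ne
    ((hm2.norm.pow_const 2).aestronglyMeasurable) (ae_of_all _ fun z => ?_)
  rw [norm_pow, norm_norm]
  refine pow_le_pow_left₀ (norm_nonneg _) ?_ 2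
  have := intervalIntegral.norm_integral_le_of_norm_le_const (a := 0) (b := 2 * π) (C := C₀)
    (f := fun θ => (f (z, θ) : ℂ) * exp ((m * θ : ℝ) * I)) ?_
  · refine this.trans ?_
    rw [sub_zero, abs_of_nonneg hpi]
  · intro θ _
    rw [norm_mul, norm_exp_ofReal_mul_I, mul_one, norm_real, Real.norm_eq_abs]
    exact hfb _

/-- the energy transfer between the angular modes `k - 1` and `k + 1` -/
theorem transfer (hI1 : S_I1) (hDIV : S_DIV) (hGF : S_GF) (hSY : S_SY) (hFA : S_FA)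
    {p : Fin (n + 3) → ℂ} (hp : IsConvexPolygon p) (hfin : volume (reg p) < ⊤)
    (hmeas : MeasurableSet (reg p)) {f : ℂ × ℝ → ℝ} (hfm : Measurable f)
    {C₀ : ℝ} (hfb : ∀ x, |f x| ≤ C₀) {C : ℝ} {F : ℝ → ℝ → ℝ} (hF : Chord p f C F)
    (k : ℕ) (hk : 1 ≤ k) :
    (En p f (k + 1) - En p f (k - 1)) / 2 =
      ∑ i, (Phi F k (p i) * conj (Phi F k (p (i + 1)))).im := by
  have h1 := ident hI1 hDIV hGF hSY hp hfin hF k
  have h2 : ∀ z ∈ reg p, ∫ θ' in (0 : ℝ)..(2 * π), F θ' (off θ' z) * Dk F k z θ' =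
      (‖∫ θ in (0 : ℝ)..(2 * π), (f (z, θ) : ℂ) * exp (((k + 1 : ℕ) * θ : ℝ) * I)‖ ^ 2 -
       ‖∫ θ in (0 : ℝ)..(2 * π), (f (z, θ) : ℂ) * exp (((k - 1 : ℕ) * θ : ℝ) * I)‖ ^ 2) / 2 := by
    intro z hz
    have h3 := hFA (fun θ => f (z, θ)) C₀ k (hfm.comp measurable_prodMk_left) (fun θ => hfb (z, θ)) hk
    rw [← h3]
    refine intervalIntegral.integral_congr fun θ' _ => ?_
    simp only [Dk, ← hF.val _ z hz]
  have h4 : ∫ z in reg p, (‖∫ θ in (0 : ℝ)..(2 * π), (f (z, θ) : ℂ) * exp (((k + 1 : ℕ) * θ : ℝ) * I)‖ ^ 2 -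
       ‖∫ θ in (0 : ℝ)..(2 * π), (f (z, θ) : ℂ) * exp (((k - 1 : ℕ) * θ : ℝ) * I)‖ ^ 2) / 2 =
       ∑ i, (Phi F k (p i) * conj (Phi F k (p (i + 1)))).im :=
    (setIntegral_congr_fun hmeas h2).symm.trans h1
  rw [← h4, integral_div, integral_sub (en_integrable hfin hfm hfb (k + 1))
    (en_integrable hfin hfm hfb (k - 1))]
  rfl

/-- the sides of the polygon of the vertex values -/
theorem phi_side (hGF : S_GF) (hSY : S_SY) {p : Fin (n + 3) → ℂ} {f : ℂ × ℝ → ℝ} {C : ℝ}
    {F : ℝ → ℝ → ℝ} (hF : Chord p f C F) (k : ℕ) (i : Fin (n + 3)) :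
    ∃ ρ : ℝ, I * (Phi F k (p (i + 1)) - Phi F k (p i)) =
      ρ * exp (((k * tau p i : ℝ) : ℂ) * I) :=
  (side hGF hSY p i F C hF.meas hF.bdd hF.per (hF.refl i) k).1

/-- the chord function of `f + s` -/
theorem chord_add {p : Fin (n + 3) → ℂ} {f : ℂ × ℝ → ℝ} {C : ℝ} {F : ℝ → ℝ → ℝ}
    (hF : Chord p f C F) (s : ℝ) : Chord p (fun x => f x + s) (C + |s|) (fun θ u => F θ u + s) where
  meas := hF.meas.add measurable_const
  bdd := fun θ u => (abs_add_le _ _).trans (add_le_add (hF.bdd θ u) le_rfl)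
  per := fun θ u => by rw [hF.per]
  val := fun θ z hz => by rw [hF.val θ z hz]
  refl := fun i t ht θ hθ => by rw [hF.refl i t ht θ hθ]

end Run7.h907.BL
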