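import Pool.Agent.Run7.h907.BL.Mean
import Pool.Agent.N440.LB.All

set_option autoImplicit false

/-!
Polygons with at most two angles different from a right angle: reversal of the direction.
-/

namespace Run7.h907.BL

open Complex Set MeasureTheory Filter Topology Pool.Agent.W780.PG Pool.Agent.W780.BB
  Pool.Agent.TH103.BL Pool.Agent.N440.LB

open scoped Real ComplexConjugate

variable {n : ℕ}

/-- `z` is a real multiple of `u` -/
def Par (z u : ℂ) : Prop := ∃ x : ℝ, z = x * u

theorem Par.add {z w u : ℂ} (h1 : Par z u) (h2 : Par w u) : Par (z + w) u := by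
  obtain ⟨x, rfl⟩ := h1
  obtain ⟨y, rfl⟩ := h2
  exact ⟨x + y, by push_cast; ring⟩

theorem Par.trans {z w u : ℂ} (h1 : Par z w) (h2 : Par w u) : Par z u := by
  obtain ⟨x, rfl⟩ := h1
  obtain ⟨y, rfl⟩ := h2
  exact ⟨x * y, by push_cast; ring⟩

theorem Par.zero (u : ℂ) : Par 0 u := ⟨0, by simp⟩

theorem Par.refl (u : ℂ) : Par u u := ⟨1, by simp⟩

theorem Par.mul (x : ℝ) {z u : ℂ} (h : Par z u) : Par (x * z) u := by
  obtain ⟨y, rfl⟩ := h
  exact ⟨x * y, by push_cast; ring⟩

theorem Par.cross {z w u : ℂ} (h1 : Par z u) (h2 : Par w u) : (conj z * w).im = 0 := by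
  obtain ⟨x, rfl⟩ := h1
  obtain ⟨y, rfl⟩ := h2
  simp only [map_mul, conj_ofReal, mul_im, mul_re, ofReal_re, ofReal_im, conj_re, conj_im]
  ring

/-- two chains of parallel sides: every triangle over the first vertex is degenerate -/
theorem chains {N s : ℕ} (hs : s ≤ N) {Q U : ℕ → ℂ} (hQ : ∀ t, Par (Q (t + 1) - Q t) (U t))
    (hU : ∀ t, t + 1 < N → t + 1 ≠ s → Par (U (t + 1)) (U t))
    (hN : Q N = Q 0) : ∀ t < N, (conj (Q t - Q 0) * (Q (t + 1) - Q 0)).im = 0 := by
  -- first chain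
  have hU1 : ∀ t, t < s → t < N → Par (U t) (U 0) := by
    intro t
    induction t with
    | zero => intro _ _; exact Par.refl _
    | succ t ih =>
      intro h1 h2
      exact (hU t h2 h1.ne).trans (ih (by omega) (by omega))
  have hQ1 : ∀ t, t ≤ s → Par (Q t - Q 0) (U 0) := by
    intro t
    induction t with
    | zero => intro _; rw [sub_self]; exact Par.zero _
    | succ t ih =>
      intro h1
      have h2 := ih (by omega)
      have h3 := (hQ t).trans (hU1 t (by omega) (by omega))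
      have := h3.add h2
      rwa [show Q (t + 1) - Q t + (Q t - Q 0) = Q (t + 1) - Q 0 by ring] at this
  -- second chain
  have hU2 : ∀ r, s + r < N → Par (U (s + r)) (U s) := by
    intro r
    induction r with
    | zero => intro _; exact Par.refl _
    | succ r ih =>
      intro h1
      exact (hU (s + r) h1 (by omega)).trans (ih (by omega))
  have hQ2 : ∀ r, s + r ≤ N → Par (Q (s + r) - Q s) (U s) := by
    intro r
    induction r with
    | zero => intro _; rw [add_zero, sub_self]; exact Par.zero _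
    | succ r ih =>
      intro h1
      have h2 := ih (by omega)
      have h3 := (hQ (s + r)).trans (hU2 r (by omega))
      have := h3.add h2
      rwa [show Q (s + r + 1) - Q (s + r) + (Q (s + r) - Q s) = Q (s + (r + 1)) - Q s by
        rw [show s + (r + 1) = s + r + 1 by ring]; ring] at this
  have hD : Par (Q 0 - Q s) (U s) := by
    have := hQ2 (N - s) (by omega)
    rwa [show s + (N - s) = N by omega, hN] at this
  have hD0 := hQ1 s le_rfl
  intro t ht
  by_cases hz : Q s - Q 0 = 0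
  · have hqs : Q s = Q 0 := sub_eq_zero.1 hz
    rcases lt_or_ge t s with h | h
    · exact (hQ1 t h.le).cross (hQ1 (t + 1) (by omega))
    · obtain ⟨r, rfl⟩ := Nat.exists_eq_add_of_le h
      rw [← hqs]
      exact (hQ2 r (by omega)).cross (by
        have := hQ2 (r + 1) (by omega)
        rwa [show s + (r + 1) = s + r + 1 by ring] at this)
  · -- the two directions are parallel
    have hUs : Par (U s) (U 0) := by
      obtain ⟨x, hx⟩ := hD0
      obtain ⟨y, hy⟩ := hD
      have hy0 : (y : ℂ) ≠ 0 := by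
        rintro h
        rw [h, zero_mul] at hy
        exact hz (by rw [← neg_sub, hy, neg_zero])
      refine ⟨-(x / y), ?_⟩
      have h1 : (y : ℂ) * U s = -(x * U 0) := by
        rw [← hy, ← hx]; ring
      have h2 : U s = (y : ℂ)⁻¹ * (y * U s) := by
        rw [← mul_assoc, inv_mul_cancel₀ hy0, one_mul]
      rw [h2, h1]
      push_cast
      field_simp
    have hall : ∀ t, t ≤ N → Par (Q t - Q 0) (U 0) := by
      intro t ht
      rcases le_or_gt t s with h | h
      · exact hQ1 t h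
      · obtain ⟨r, rfl⟩ := Nat.exists_eq_add_of_le h.le
        have h3 := ((hQ2 r ht).trans hUs).add hD0
        rwa [show Q (s + r) - Q s + (Q s - Q 0) = Q (s + r) - Q 0 by ring] at h3
    exact (hall t ht.le).cross (hall (t + 1) ht)

/-- the element of `Fin (n + 3)` of a natural number -/
def cs (n t : ℕ) : Fin (n + 3) := ⟨t % (n + 3), Nat.mod_lt _ (by omega)⟩

theorem cs_succ (n t : ℕ) : cs n (t + 1) = cs n t + 1 := by
  apply Fin.ext
  rw [Fin.val_add, Fin.val_one]
  simp only [cs]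
  exact (Nat.mod_add_mod t (n + 3) 1).symm

theorem cs_val (i : Fin (n + 3)) : cs n i.val = i := Fin.ext (Nat.mod_eq_of_lt i.isLt)

theorem cs_zero (n : ℕ) : cs n 0 = 0 := Fin.ext (Nat.zero_mod _)

theorem cs_top (n : ℕ) : cs n (n + 3) = 0 := Fin.ext (Nat.mod_self _)

theorem cs_inj {n s t : ℕ} (hs : s < n + 3) (ht : t < n + 3) (h : cs n s = cs n t) : s = t := by
  have h1 := congrArg Fin.val h
  simp only [cs] at h1
  rwa [Nat.mod_eq_of_lt hs, Nat.mod_eq_of_lt ht] at h1

/-- the cyclic version -/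
theorem area_zero {a b : Fin (n + 3)} {Q U : Fin (n + 3) → ℂ}
    (hQ : ∀ i, Par (Q (i + 1) - Q i) (U i))
    (hU : ∀ i, i + 1 ≠ a → i + 1 ≠ b → Par (U (i + 1)) (U i)) :
    ∑ i, (conj (Q i) * Q (i + 1)).im = 0 := by
  have hshift : ∀ φ : Fin (n + 3) → ℝ, ∑ i, φ (i + 1) = ∑ i, φ i := fun φ =>
    Fintype.sum_equiv (Equiv.addRight (1 : Fin (n + 3))) _ _ fun _ => rfl
  have h0 : ∀ i, (conj (Q i - Q a) * (Q (i + 1) - Q a)).im = 0 := by
    intro i
    have hcast : ∀ t : ℕ, a + cs n (t + 1) = a + cs n t + 1 := by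
      intro t; rw [cs_succ, add_assoc]
    have hs : b = a + cs n (b - a).val := by
      rw [cs_val, add_sub_cancel]
    have h := chains (N := n + 3) (s := (b - a).val) (by omega)
      (Q := fun t : ℕ => Q (a + cs n t)) (U := fun t : ℕ => U (a + cs n t))
      (fun t => by simp only [hcast]; exact hQ _)
      (fun t h1 h2 => by
        simp only [hcast]
        refine hU _ ?_ ?_
        · intro h
          rw [← hcast] at h
          have h3 : cs n (t + 1) = cs n 0 := by
            rw [cs_zero]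
            simpa using h
          have := cs_inj h1 (by omega) h3
          omega
        · intro h
          rw [← hcast, hs] at h
          have h3 : cs n (t + 1) = cs n (b - a).val := by
            have := add_left_cancel h
            simpa [cs_val] using this
          exact h2 (cs_inj h1 (b - a).isLt h3))
      (by simp only [cs_top, cs_zero]) (i - a).val (i - a).isLt
    have e1 : a + cs n (i - a).val = i := by
      rw [cs_val, add_sub_cancel]
    have e2 : a + cs n ((i - a).val + 1) = i + 1 := by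
      rw [hcast, e1]
    have e3 : a + cs n 0 = a := by rw [cs_zero, add_zero]
    simp only [e1, e2, e3] at h
    exact h
  have h1 : ∀ i, (conj (Q i) * Q (i + 1)).im = (conj (Q i - Q a) * (Q (i + 1) - Q a)).im +
      ((conj (Q a) * Q (i + 1)).im - (conj (Q a) * Q i).im) := by
    intro i
    simp only [map_sub, mul_im, sub_re, sub_im, conj_re, conj_im]
    ring
  rw [Finset.sum_congr rfl fun i _ => h1 i, Finset.sum_add_distrib, Finset.sum_sub_distrib,
    hshift (fun i => (conj (Q a) * Q i).im), sub_self, add_zero]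
  exact Finset.sum_eq_zero fun i _ => h0 i

/-- a right angle at the vertex `i + 1` -/
theorem right_angle {p : Fin (n + 3) → ℂ} (hp : IsConvexPolygon p) {i : Fin (n + 3)}
    (h : ang p (i + 1) = π / 2) :
    ∃ c : ℝ, p (i + 1 + 1) - p (i + 1) = (I * c) * (p (i + 1) - p i) := by
  unfold ang at h
  rw [add_sub_cancel_right] at h
  unfold EuclideanGeometry.angle at h
  have h1 := InnerProductGeometry.inner_eq_zero_iff_angle_eq_pi_div_two
    (p i -ᵥ p (i + 1)) (p (i + 1 + 1) -ᵥ p (i + 1))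
  have h2 := h1.2 h
  rw [vsub_eq_sub, vsub_eq_sub, Complex.inner] at h2
  have hne : p (i + 1) - p i ≠ 0 := side_ne hp i
  set u := p (i + 1) - p i with hu
  set v := p (i + 1 + 1) - p (i + 1) with hv
  have h3 : (conj u * v).re = 0 := by
    have : p i - p (i + 1) = -u := by rw [hu]; ring
    rw [this, map_neg, mul_neg, neg_re] at h2
    rw [mul_comm]
    linarith
  refine ⟨(conj u * v).im / normSq u, ?_⟩
  have hn : (normSq u : ℂ) ≠ 0 := by exact_mod_cast (normSq_pos.2 hne).ne'
  have h4 : conj u * v = I * ((conj u * v).im : ℝ) := by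
    apply Complex.ext
    · rw [h3]; simp
    · simp
  have h5 : (normSq u : ℂ) * v = u * (conj u * v) := by
    rw [← mul_assoc, mul_conj]
  have h7 : u * (conj u * v) = u * (I * ((conj u * v).im : ℝ)) := congrArg (fun z => u * z) h4
  apply mul_left_cancel₀ hn
  rw [h5, h7, ofReal_div]
  field_simp

theorem exp_tau_pow {p : Fin (n + 3) → ℂ} (hp : IsConvexPolygon p) (i : Fin (n + 3)) (k : ℕ) :
    exp (((k * tau p i : ℝ) : ℂ) * I) =
      (((‖p (i + 1) - p i‖ ^ k)⁻¹ : ℝ) : ℂ) * (p (i + 1) - p i) ^ k := by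
  have h1 := norm_mul_exp_arg_mul_I (p (i + 1) - p i)
  have h2 : (‖p (i + 1) - p i‖ : ℂ) ≠ 0 := by
    exact_mod_cast norm_ne_zero_iff.2 (side_ne hp i)
  have h3 : exp (((k * tau p i : ℝ) : ℂ) * I) = exp (((arg (p (i + 1) - p i) : ℝ) : ℂ) * I) ^ k := by
    rw [← exp_nat_mul]
    congr 1
    unfold tau
    push_cast
    ring
  rw [h3]
  have h4 : (p (i + 1) - p i) ^ k =
      (‖p (i + 1) - p i‖ * exp (((arg (p (i + 1) - p i) : ℝ) : ℂ) * I)) ^ k := by rw [h1]
  rw [h4, mul_pow, ofReal_inv, ofReal_pow, ← mul_assoc, inv_mul_cancel₀ (pow_ne_zero k h2), one_mul]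

theorem right_par {p : Fin (n + 3) → ℂ} (hp : IsConvexPolygon p) {i : Fin (n + 3)}
    (h : ang p (i + 1) = π / 2) (m : ℕ) :
    Par (exp ((((2 * m : ℕ) * tau p (i + 1) : ℝ) : ℂ) * I))
      (exp ((((2 * m : ℕ) * tau p i : ℝ) : ℂ) * I)) := by
  obtain ⟨c, hc⟩ := right_angle hp h
  rw [exp_tau_pow hp, exp_tau_pow hp, hc]
  have h2 : (‖p (i + 1) - p i‖ : ℝ) ^ (2 * m) ≠ 0 :=
    pow_ne_zero _ (norm_ne_zero_iff.2 (side_ne hp i))
  set A : ℝ := (‖(I * c) * (p (i + 1) - p i)‖ ^ (2 * m))⁻¹ with hA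
  refine ⟨A * (-(c ^ 2)) ^ m * ‖p (i + 1) - p i‖ ^ (2 * m), ?_⟩
  have h3 : ((I * (c : ℂ)) * (p (i + 1) - p i)) ^ (2 * m) =
      ((-(c ^ 2) : ℝ) : ℂ) ^ m * (p (i + 1) - p i) ^ (2 * m) := by
    rw [mul_pow, pow_mul (I * (c : ℂ)) 2 m, mul_pow, I_sq]
    push_cast
    ring
  rw [h3]
  set B : ℝ := ‖p (i + 1) - p i‖ ^ (2 * m) with hB
  have hBB : (B : ℂ) * ((B⁻¹ : ℝ) : ℂ) = 1 := by rw [← ofReal_mul, mul_inv_cancel₀ h2, ofReal_one]
  rw [show ((A * (-(c ^ 2)) ^ m * B : ℝ) : ℂ) = (A : ℂ) * ((-(c ^ 2) : ℝ) : ℂ) ^ m * (B : ℂ) by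
    push_cast; ring]
  linear_combination (-(A : ℂ) * ((-(c ^ 2) : ℝ) : ℂ) ^ m * (p (i + 1) - p i) ^ (2 * m)) * hBB

/-- the energies of the odd modes are equal -/
theorem en_odd (P : Parts) {p : Fin (n + 3) → ℂ} (hp : IsConvexPolygon p) {a b : Fin (n + 3)}
    (hab : ∀ i, i ≠ a → i ≠ b → ang p i = π / 2) {f : ℂ × ℝ → ℝ}
    (hf : Measurable f) {C₀ : ℝ} (hb : ∀ x, |f x| ≤ C₀) (hI : IsInvariantFun p f) (m : ℕ)
    (hm : 1 ≤ m) : En p f (2 * m + 1) = En p f (2 * m - 1) := by
  obtain ⟨C, F, hF⟩ := P.ch P.basic P.hull n p hp f hf ⟨C₀, hb⟩ hI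
  have hfin := reg_bounded P.hull hp
  have hmeas : MeasurableSet (reg p) := (P.basic n p hp).2.1.measurableSet
  have htr := transfer P.i1 P.div P.gf P.sy P.fa hp hfin hmeas hf hb hF (2 * m) (by omega)
  set Q : Fin (n + 3) → ℂ := fun i => I * Phi F (2 * m) (p i) with hQ
  have hQe : ∀ i, Par (Q (i + 1) - Q i) (exp ((((2 * m : ℕ) * tau p i : ℝ) : ℂ) * I)) := by
    intro i
    obtain ⟨ρ, hρ⟩ := phi_side P.gf P.sy hF (2 * m) i
    refine ⟨ρ, ?_⟩
    rw [← hρ]
    simp only [hQ]
    ring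
  have hA := area_zero (a := a) (b := b) hQe fun i h1 h2 => right_par hp (hab _ h1 h2) m
  have hsum : ∑ i, (conj (Q i) * Q (i + 1)).im =
      -∑ i, (Phi F (2 * m) (p i) * conj (Phi F (2 * m) (p (i + 1)))).im := by
    rw [← Finset.sum_neg_distrib]
    refine Finset.sum_congr rfl fun i _ => ?_
    simp only [hQ, map_mul, conj_I, mul_im, mul_re, conj_re, conj_im, I_re, I_im, neg_re, neg_im]
    ring
  linarith

end Run7.h907.BL
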