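import Pool.Agent.Run7.h907.BL.Mean
import Pool.Agent.Run7.h907.BL.Rev
import Pool.Agent.N398.LB.FB

set_option autoImplicit false

/-!
Linear combinations of invariant functions; functions whose side data vanish on all sides but two.
-/

namespace Run7.h907.BL

open Complex Set MeasureTheory Filter Topology Pool.Agent.W780.PG Pool.Agent.W780.BB
  Pool.Agent.TH103.BL Pool.Agent.N440.LB

open scoped Real ComplexConjugate

variable {n M : ℕ}

theorem chord_sum {p : Fin (n + 3) → ℂ} {f : Fin M → ℂ × ℝ → ℝ} {C : Fin M → ℝ}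
    {F : Fin M → ℝ → ℝ → ℝ} (hF : ∀ j, Chord p (f j) (C j) (F j)) (v : Fin M → ℝ) :
    Chord p (fun x => ∑ j, v j * f j x) (∑ j, |v j| * C j) (fun θ u => ∑ j, v j * F j θ u) where
  meas := by
    have h : Measurable (fun x : ℝ × ℝ => ∑ j, v j * F j x.1 x.2) :=
      Finset.measurable_fun_sum _ fun j _ => measurable_const.mul (hF j).meas
    exact h
  bdd := fun θ u => (Finset.abs_sum_le_sum_abs _ _).trans (Finset.sum_le_sum fun j _ => by
    rw [abs_mul]; exact mul_le_mul_of_nonneg_left ((hF j).bdd θ u) (abs_nonneg _))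
  per := fun θ u => Finset.sum_congr rfl fun j _ => by rw [(hF j).per]
  val := fun θ z hz => Finset.sum_congr rfl fun j _ => by rw [(hF j).val θ z hz]
  refl := fun i t ht θ hθ => Finset.sum_congr rfl fun j _ => by rw [(hF j).refl i t ht θ hθ]

theorem G_sum {p : Fin (n + 3) → ℂ} {f : Fin M → ℂ × ℝ → ℝ} {C : Fin M → ℝ}
    {F : Fin M → ℝ → ℝ → ℝ} (hF : ∀ j, Chord p (f j) (C j) (F j)) (v : Fin M → ℝ) (z : ℂ) (θ : ℝ) :
    G (fun θ u => ∑ j, v j * F j θ u) z θ = ∑ j, v j * G (F j) z θ := by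
  unfold G
  rw [intervalIntegral.integral_finsetSum]
  · simp only [intervalIntegral.integral_const_mul]
  · intro j _
    exact (ii' ((hF j).meas.comp measurable_prodMk_left).stronglyMeasurable
      ((hF j).bdd θ)).const_mul _

theorem Phi_sum (hGF : S_GF) {p : Fin (n + 3) → ℂ} {f : Fin M → ℂ × ℝ → ℝ} {C : Fin M → ℝ}
    {F : Fin M → ℝ → ℝ → ℝ} (hF : ∀ j, Chord p (f j) (C j) (F j)) (v : Fin M → ℝ) (k : ℕ) (z : ℂ) :
    Phi (fun θ u => ∑ j, v j * F j θ u) k z = ∑ j, (v j : ℂ) * Phi (F j) k z := by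
  unfold Phi
  simp only [G_sum hF]
  have h : ∀ θ : ℝ, exp (((k * θ : ℝ) : ℂ) * I) * ((∑ j, v j * G (F j) z θ : ℝ) : ℂ) =
      ∑ j, (v j : ℂ) * (exp (((k * θ : ℝ) : ℂ) * I) * (G (F j) z θ : ℂ)) := by
    intro θ
    rw [ofReal_sum, Finset.mul_sum]
    refine Finset.sum_congr rfl fun j _ => ?_
    push_cast
    ring
  simp only [h]
  rw [intervalIntegral.integral_finsetSum]
  · simp only [intervalIntegral.integral_const_mul]
  · intro j _
    obtain ⟨hG1, hG2, -, -⟩ := hGF (F j) (C j) (hF j).meas (hF j).bdd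
    refine IntervalIntegrable.const_mul (ii' (K := C j * ‖z‖) ?_ ?_) _
    · have h : Continuous (fun θ : ℝ => exp (((k * θ : ℝ) : ℂ) * I)) := by fun_prop
      exact (h.measurable.mul (measurable_ofReal.comp
        (hG1.comp (measurable_const.prodMk measurable_id)))).stronglyMeasurable
    · intro θ
      rw [norm_mul, norm_exp_ofReal_mul_I, one_mul, norm_real, Real.norm_eq_abs]
      exact hG2 _ _

/-- the side datum number `k` of the side `i` -/
noncomputable def rho (p : Fin (n + 3) → ℂ) (F : ℝ → ℝ → ℝ) (k : ℕ) (i : Fin (n + 3)) : ℝ :=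
  (exp (-((k * tau p i : ℝ) : ℂ) * I) * (I * (Phi F k (p (i + 1)) - Phi F k (p i)))).re

theorem rho_side (hGF : S_GF) (hSY : S_SY) {p : Fin (n + 3) → ℂ} {f : ℂ × ℝ → ℝ} {C : ℝ}
    {F : ℝ → ℝ → ℝ} (hF : Chord p f C F) (k : ℕ) (i : Fin (n + 3)) :
    I * (Phi F k (p (i + 1)) - Phi F k (p i)) =
      rho p F k i * exp (((k * tau p i : ℝ) : ℂ) * I) := by
  obtain ⟨ρ, hρ⟩ := phi_side hGF hSY hF k i
  have h1 : exp (-((k * tau p i : ℝ) : ℂ) * I) * exp (((k * tau p i : ℝ) : ℂ) * I) = 1 := by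
    rw [← exp_add]; simp
  have h2 : rho p F k i = ρ := by
    unfold rho
    rw [hρ, show exp (-((k * tau p i : ℝ) : ℂ) * I) * (ρ * exp (((k * tau p i : ℝ) : ℂ) * I)) =
      ρ * (exp (-((k * tau p i : ℝ) : ℂ) * I) * exp (((k * tau p i : ℝ) : ℂ) * I)) by ring, h1,
      mul_one, ofReal_re]
  rw [h2, hρ]

theorem rho_sum (hGF : S_GF) {p : Fin (n + 3) → ℂ} {f : Fin M → ℂ × ℝ → ℝ} {C : Fin M → ℝ}
    {F : Fin M → ℝ → ℝ → ℝ} (hF : ∀ j, Chord p (f j) (C j) (F j)) (v : Fin M → ℝ) (k : ℕ)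
    (i : Fin (n + 3)) :
    rho p (fun θ u => ∑ j, v j * F j θ u) k i = ∑ j, v j * rho p (F j) k i := by
  unfold rho
  rw [Phi_sum hGF hF, Phi_sum hGF hF, ← Finset.sum_sub_distrib, Finset.mul_sum, Finset.mul_sum,
    re_sum]
  refine Finset.sum_congr rfl fun j _ => ?_
  rw [← re_ofReal_mul]
  congr 1
  ring

/-- the last index -/
def lastIdx (n : ℕ) : Fin (n + 3) := ⟨n + 2, by omega⟩

theorem lastIdx_succ (n : ℕ) : lastIdx n + 1 = 0 := by
  apply Fin.ext
  rw [Fin.val_add, Fin.val_one]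
  simp only [lastIdx]
  exact Nat.mod_self _

/-- if the side data vanish on all sides but the last two, then there is no energy transfer -/
theorem no_transfer (P : Parts) {p : Fin (n + 3) → ℂ} (hp : IsConvexPolygon p) {f : ℂ × ℝ → ℝ}
    (hf : Measurable f) {C₀ : ℝ} (hb : ∀ x, |f x| ≤ C₀) {C : ℝ} {F : ℝ → ℝ → ℝ}
    (hF : Chord p f C F) (k : ℕ) (hk : 1 ≤ k)
    (h0 : ∀ i : Fin (n + 3), i.val < n + 1 → rho p F k i = 0) :
    En p f (k + 1) = En p f (k - 1) := by
  have hfin := reg_bounded P.hull hp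
  have hmeas : MeasurableSet (reg p) := (P.basic n p hp).2.1.measurableSet
  have htr := transfer P.i1 P.div P.gf P.sy P.fa hp hfin hmeas hf hb hF k hk
  set Q : Fin (n + 3) → ℂ := fun i => I * Phi F k (p i) with hQ
  set U : Fin (n + 3) → ℂ := fun i => if i = lastIdx n then
    exp (((k * tau p (lastIdx n) : ℝ) : ℂ) * I) else
    exp (((k * tau p ⟨n + 1, by omega⟩ : ℝ) : ℂ) * I) with hU
  have hQe : ∀ i, Par (Q (i + 1) - Q i) (U i) := by
    intro i
    have h1 := rho_side P.gf P.sy hF k i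
    have h2 : Q (i + 1) - Q i = rho p F k i * exp (((k * tau p i : ℝ) : ℂ) * I) := by
      rw [← h1]; simp only [hQ]; ring
    rw [h2]
    by_cases hi : i = lastIdx n
    · simp only [hU, hi, if_true]
      exact ⟨_, rfl⟩
    · simp only [hU, hi, if_false]
      by_cases hi2 : i.val < n + 1
      · rw [h0 i hi2, ofReal_zero, zero_mul]
        exact Par.zero _
      · have hi3 : i = ⟨n + 1, by omega⟩ := by
          apply Fin.ext
          have h4 := i.isLt
          have h5 : i.val ≠ n + 2 := fun h => hi (Fin.ext h)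
          simp only
          omega
        rw [← hi3]
        exact ⟨_, rfl⟩
  have hA := area_zero (a := lastIdx n) (b := 0) hQe (fun i h1 h2 => by
    have h3 : i ≠ lastIdx n := by
      rintro rfl
      exact h2 (lastIdx_succ n)
    simp only [hU, h1, h3, if_false]
    exact Par.refl _)
  have hsum : ∑ i, (conj (Q i) * Q (i + 1)).im =
      -∑ i, (Phi F k (p i) * conj (Phi F k (p (i + 1)))).im := by
    rw [← Finset.sum_neg_distrib]
    refine Finset.sum_congr rfl fun i _ => ?_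
    simp only [hQ, map_mul, conj_I, mul_im, mul_re, conj_re, conj_im, I_re, I_im, neg_re, neg_im]
    ring
  linarith

open Pool.Agent.N398.LB.FB in
/-- the Fourier coefficients of a real function -/
theorem coef_norm (g : ℝ → ℝ) (j : ℤ) :
    ‖∫ θ in (0 : ℝ)..(2 * π), (g θ : ℂ) * exp (((j.natAbs : ℝ) * θ : ℝ) * I)‖ ^ 2 =
      (2 * π) ^ 2 * ‖fourierCoeffOn tp (fun θ => (g θ : ℂ)) j‖ ^ 2 := by
  rcases Int.eq_nat_or_neg j with ⟨m, rfl | rfl⟩
  · rw [Int.natAbs_natCast, fourierCoeffOn_eq_integral]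
    have h1 : ∫ θ in (0 : ℝ)..(2 * π), fourier (-(m : ℤ)) (θ : AddCircle (2 * π - 0)) •
        (fun θ => (g θ : ℂ)) θ =
        conj (∫ θ in (0 : ℝ)..(2 * π), (g θ : ℂ) * exp (((m : ℝ) * θ : ℝ) * I)) := by
      rw [intervalIntegral.integral_of_le tp.le, intervalIntegral.integral_of_le tp.le,
        ← integral_conj]
      congr 1
      funext θ
      rw [fourier_coe_apply, smul_eq_mul, map_mul, conj_ofReal, mul_comm, ← Complex.exp_conj]
      congr 2
      have h : (π : ℂ) ≠ 0 := by exact_mod_cast Real.pi_ne_zero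
      rw [map_mul, Complex.conj_ofReal, Complex.conj_I]
      push_cast
      field_simp
      ring
    have h2 : (2 * π) ≠ 0 := tp.ne'
    rw [h1, norm_smul, RCLike.norm_conj, sub_zero, Real.norm_eq_abs, mul_pow |1 / (2 * π)|, sq_abs,
      ← mul_assoc, ← mul_pow, mul_one_div_cancel h2, one_pow, one_mul]
  · rw [Int.natAbs_neg, Int.natAbs_natCast, coef, norm_smul, mul_pow, Real.norm_eq_abs, sq_abs]

/-- the modes `m, m + 2, …` and their negatives -/
def modeIdx (m : ℕ) (l : ℤ) : ℤ := if 0 ≤ l then m + 2 * l else -m + 2 * l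

theorem modeIdx_inj (m : ℕ) : Function.Injective (modeIdx m) := by
  intro a b h
  unfold modeIdx at h
  split_ifs at h <;> omega

theorem modeIdx_natAbs (m : ℕ) (l : ℤ) : (modeIdx m l).natAbs = m + 2 * l.natAbs := by
  unfold modeIdx
  split_ifs <;> omega

open Pool.Agent.N398.LB.FB in
/-- Bessel's inequality for the modes `m, m + 2, …` -/
theorem bessel_multi {g : ℝ → ℝ} {C : ℝ} (hg : Measurable g) (hb : ∀ θ, |g θ| ≤ C) (m N : ℕ) :
    ∑ l ∈ Finset.Icc (-(N : ℤ)) N,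
      ‖∫ θ in (0 : ℝ)..(2 * π), (g θ : ℂ) * exp (((((m + 2 * l.natAbs : ℕ)) : ℝ) * θ : ℝ) * I)‖ ^ 2 ≤
    2 * π * ∫ θ in (0 : ℝ)..(2 * π), g θ ^ 2 := by
  have hL : MemLp (fun θ => (g θ : ℂ)) 2 (volume.restrict (Ioc 0 (2 * π))) :=
    MemLp.of_bound (Complex.measurable_ofReal.comp hg).aestronglyMeasurable C
      (ae_of_all _ fun θ => by rw [Complex.norm_real]; exact hb θ)
  have hs := hasSum_sq_fourierCoeffOn tp hL
  simp only [← modeIdx_natAbs, coef_norm]
  rw [← Finset.mul_sum]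
  have h1 : ∑ l ∈ Finset.Icc (-(N : ℤ)) N,
      ‖fourierCoeffOn tp (fun θ => (g θ : ℂ)) (modeIdx m l)‖ ^ 2 =
      ∑ j ∈ (Finset.Icc (-(N : ℤ)) N).map ⟨modeIdx m, modeIdx_inj m⟩,
        ‖fourierCoeffOn tp (fun θ => (g θ : ℂ)) j‖ ^ 2 := by
    rw [Finset.sum_map]
    rfl
  have h2 := sum_le_hasSum ((Finset.Icc (-(N : ℤ)) N).map ⟨modeIdx m, modeIdx_inj m⟩)
    (fun j _ => sq_nonneg _) hs
  rw [← h1] at h2
  have h3 := mul_le_mul_of_nonneg_left h2 (sq_nonneg (2 * π))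
  refine h3.trans (le_of_eq ?_)
  rw [sub_zero, smul_eq_mul]
  have : (2 * π) ≠ 0 := tp.ne'
  field_simp
  refine intervalIntegral.integral_congr fun θ _ => ?_
  simp only [norm_real, Real.norm_eq_abs, sq_abs]

/-- equal energies -/
theorem energy_le (P : Parts) {p : Fin (n + 3) → ℂ} (hp : IsConvexPolygon p) {f : ℂ × ℝ → ℝ}
    (hf : Measurable f) {C₀ : ℝ} (hb : ∀ x, |f x| ≤ C₀) {C : ℝ} {F : ℝ → ℝ → ℝ}
    (hF : Chord p f C F) (m N : ℕ)
    (h0 : ∀ l < N, ∀ i : Fin (n + 3), i.val < n + 1 → rho p F (m + 2 * l + 1) i = 0) :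
    (2 * N + 1 : ℝ) * En p f m ≤ 2 * π * ∫ z in reg p, ∫ θ in (0 : ℝ)..(2 * π), f (z, θ) ^ 2 := by
  have hfin := reg_bounded P.hull hp
  have hE : ∀ l ≤ N, En p f (m + 2 * l) = En p f m := by
    intro l
    induction l with
    | zero => intro _; rfl
    | succ l ih =>
      intro h
      have h1 := no_transfer P hp hf hb hF (m + 2 * l + 1) (by omega) (h0 l (by omega))
      rw [show m + 2 * l + 1 - 1 = m + 2 * l by omega] at h1
      rw [show m + 2 * (l + 1) = m + 2 * l + 1 + 1 by ring, h1]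
      exact ih (by omega)
  have hsq : IntegrableOn (fun z => ∫ θ in (0 : ℝ)..(2 * π), f (z, θ) ^ 2) (reg p) :=
    mean_int (C := C₀ ^ 2) (f := fun x => f x ^ 2) hfin (hf.pow_const 2) fun x => by
      rw [abs_pow]; exact pow_le_pow_left₀ (abs_nonneg _) (hb x) 2
  have h1 : ∫ z in reg p, ∑ l ∈ Finset.Icc (-(N : ℤ)) N,
      ‖∫ θ in (0 : ℝ)..(2 * π), (f (z, θ) : ℂ) *
        exp (((((m + 2 * l.natAbs : ℕ)) : ℝ) * θ : ℝ) * I)‖ ^ 2 ≤
      ∫ z in reg p, 2 * π * ∫ θ in (0 : ℝ)..(2 * π), f (z, θ) ^ 2 := by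
    refine integral_mono (integrable_finsetSum _ fun l _ => en_integrable hfin hf hb _)
      (hsq.const_mul _) fun z => ?_
    exact bessel_multi (hf.comp measurable_prodMk_left) (fun θ => hb (z, θ)) m N
  rw [integral_finsetSum _ fun l _ => en_integrable hfin hf hb _, integral_const_mul] at h1
  refine le_trans (le_of_eq ?_) h1
  have h2 : ∀ l ∈ Finset.Icc (-(N : ℤ)) N, (∫ z in reg p,
      ‖∫ θ in (0 : ℝ)..(2 * π), (f (z, θ) : ℂ) *
        exp (((((m + 2 * l.natAbs : ℕ)) : ℝ) * θ : ℝ) * I)‖ ^ 2) = En p f m := by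
    intro l hl
    rw [Finset.mem_Icc] at hl
    exact hE l.natAbs (by omega)
  rw [Finset.sum_congr rfl h2, Finset.sum_const, Int.card_Icc, nsmul_eq_mul]
  congr 1
  have h4 : ((N : ℤ) + 1 - -(N : ℤ)).toNat = 2 * N + 1 := by omega
  rw [h4]
  push_cast
  ring

end Run7.h907.BL
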