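import Pool.Agent.Run7.h907.BL.Lin
import Pool.Agent.Run7.h907.BL.FinB
import Mathlib.Analysis.InnerProductSpace.GramSchmidtOrtho

set_option autoImplicit false

/-!
Many invariant functions: the sum of the energies of their position means.
-/

namespace Run7.h907.BL

open Complex Set MeasureTheory Filter Topology Pool.Agent.W780.PG Pool.Agent.W780.BB
  Pool.Agent.TH103.BL Pool.Agent.N440.LB

open scoped Real ComplexConjugate

variable {n M : ℕ}

/-- an orthonormal basis adapted to a sequence of vectors -/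
theorem exists_adapted (a : Fin M → EuclideanSpace ℝ (Fin M)) :
    ∃ v : OrthonormalBasis (Fin M) ℝ (EuclideanSpace ℝ (Fin M)),
      ∀ s t : Fin M, t < s → ∑ j, v s j * a t j = 0 := by
  refine ⟨InnerProductSpace.gramSchmidtOrthonormalBasis (by simp) a, fun s t h => ?_⟩
  have h1 := InnerProductSpace.gramSchmidtOrthonormalBasis_inv_triangular (𝕜 := ℝ)
    (E := EuclideanSpace ℝ (Fin M)) (by simp) a h
  rw [PiLp.inner_apply] at h1
  rw [← h1]
  refine Finset.sum_congr rfl fun j _ => ?_
  simp [mul_comm]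

/-- Parseval for the basis -/
theorem parseval (v : OrthonormalBasis (Fin M) ℝ (EuclideanSpace ℝ (Fin M))) (x : Fin M → ℝ) :
    ∑ s, (∑ j, v s j * x j) ^ 2 = ∑ j, x j ^ 2 := by
  have h := v.sum_sq_norm_inner_right (WithLp.toLp 2 x : EuclideanSpace ℝ (Fin M))
  rw [EuclideanSpace.norm_sq_eq] at h
  have h1 : ∀ s, ‖inner ℝ (v s) (WithLp.toLp 2 x : EuclideanSpace ℝ (Fin M))‖ ^ 2 =
      (∑ j, v s j * x j) ^ 2 := by
    intro s
    rw [PiLp.inner_apply, Real.norm_eq_abs, sq_abs]
    congr 1
    refine Finset.sum_congr rfl fun j _ => ?_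
    simp [mul_comm]
  simp only [h1] at h
  rw [h]
  refine Finset.sum_congr rfl fun j _ => ?_
  simp

theorem unit_sq (v : OrthonormalBasis (Fin M) ℝ (EuclideanSpace ℝ (Fin M))) (s : Fin M) :
    ∑ j, v s j ^ 2 = 1 := by
  have h := EuclideanSpace.norm_sq_eq (v s)
  rw [v.orthonormal.1 s] at h
  simp only [Real.norm_eq_abs, sq_abs] at h
  linarith

/-- Parseval for the basis, complex numbers -/
theorem parseval_c (v : OrthonormalBasis (Fin M) ℝ (EuclideanSpace ℝ (Fin M))) (x : Fin M → ℂ) :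
    ∑ s, ‖∑ j, (v s j : ℂ) * x j‖ ^ 2 = ∑ j, ‖x j‖ ^ 2 := by
  have h1 := parseval v fun j => (x j).re
  have h2 := parseval v fun j => (x j).im
  have e1 : ∀ s, ‖∑ j, (v s j : ℂ) * x j‖ ^ 2 =
      (∑ j, v s j * (x j).re) ^ 2 + (∑ j, v s j * (x j).im) ^ 2 := by
    intro s
    rw [← normSq_eq_norm_sq, normSq_apply, re_sum, im_sum]
    simp only [re_ofReal_mul, im_ofReal_mul]
    ring
  have e2 : ∀ j, ‖x j‖ ^ 2 = (x j).re ^ 2 + (x j).im ^ 2 := by
    intro j
    rw [← normSq_eq_norm_sq, normSq_apply]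
    ring
  simp only [e1, e2, Finset.sum_add_distrib]
  rw [h1, h2]

/-- The Fourier coefficient number `m` in the direction of the function `f` of the state, at the
position `z`. -/
noncomputable def mode (m : ℕ) (f : ℂ × ℝ → ℝ) (z : ℂ) : ℂ :=
  (∫ θ in (0 : ℝ)..(2 * π), (f (z, θ) : ℂ) * exp ((m * θ : ℝ) * I)) / ((2 * π : ℝ) : ℂ)

theorem mode_zero (f : ℂ × ℝ → ℝ) (z : ℂ) : ‖mode 0 f z‖ ^ 2 = posMean f z ^ 2 := by
  unfold mode posMean
  simp only [Nat.cast_zero, zero_mul, ofReal_zero, exp_zero, mul_one]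
  rw [intervalIntegral.integral_ofReal, ← ofReal_div, norm_real, Real.norm_eq_abs, sq_abs]

/-- the main estimate for orthonormal invariant functions -/
theorem many_modes (P : Parts) {p : Fin (n + 3) → ℂ} (hp : IsConvexPolygon p)
    (f : Fin M → ℂ × ℝ → ℝ) (hf : ∀ j, Measurable (f j)) (hb : ∀ j, ∃ C : ℝ, ∀ x, |f j x| ≤ C)
    (hI : ∀ j, IsInvariantFun p (f j))
    (ho : ∀ i j, ∫ z in region p, posMean (fun x => f i x * f j x) z =
      if i = j then volume.real (region p) else 0) (m : ℕ) :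
    ∫ z in region p, ∑ j, ‖mode m (f j) z‖ ^ 2 ≤
      volume.real (region p) * ∑ s : Fin M, (1 : ℝ) / (2 * (s.val / (n + 1) : ℕ) + 1) := by
  have hfin := reg_bounded P.hull hp
  have hpi : (0 : ℝ) < 2 * π := by positivity
  have hreg : region p = reg p := (P.hull n p hp).2
  choose C₀ hC₀ using hb
  have hch : ∀ j, ∃ (C : ℝ) (F : ℝ → ℝ → ℝ), Chord p (f j) C F := fun j =>
    P.ch P.basic P.hull n p hp (f j) (hf j) ⟨C₀ j, hC₀ j⟩ (hI j)
  choose C F hF using hch
  -- the vectors of side data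
  set a : Fin M → EuclideanSpace ℝ (Fin M) := fun t => WithLp.toLp 2 fun j =>
    rho p (F j) (m + 2 * (t.val / (n + 1)) + 1)
      ⟨t.val % (n + 1), (Nat.mod_lt _ (by omega)).trans (by omega)⟩ with ha
  obtain ⟨v, hv⟩ := exists_adapted a
  set g : Fin M → ℂ × ℝ → ℝ := fun s x => ∑ j, v s j * f j x with hg
  have hgm : ∀ s, Measurable (g s) := fun s =>
    Finset.measurable_fun_sum _ fun j _ => measurable_const.mul (hf j)
  have hgb : ∀ s x, |g s x| ≤ ∑ j, |v s j| * C₀ j := fun s x =>
    (Finset.abs_sum_le_sum_abs _ _).trans (Finset.sum_le_sum fun j _ => by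
      rw [abs_mul]; exact mul_le_mul_of_nonneg_left (hC₀ j x) (abs_nonneg _))
  have hgF : ∀ s, Chord p (g s) (∑ j, |v s j| * C j) (fun θ u => ∑ j, v s j * F j θ u) :=
    fun s => chord_sum hF (fun j => v s j)
  -- the energies
  have hE : ∀ s : Fin M, (2 * ((s.val / (n + 1) : ℕ) : ℝ) + 1) * En p (g s) m ≤
      2 * π * ∫ z in reg p, ∫ θ in (0 : ℝ)..(2 * π), g s (z, θ) ^ 2 := by
    intro s
    refine energy_le P hp (hgm s) (hgb s) (hgF s) m (s.val / (n + 1)) fun l hl i hi => ?_
    rw [rho_sum P.gf hF (fun j => v s j)]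
    have ht : l * (n + 1) + i.val < s.val := by
      have h1 : (l + 1) * (n + 1) ≤ s.val := by
        calc (l + 1) * (n + 1) ≤ (s.val / (n + 1)) * (n + 1) := Nat.mul_le_mul_right _ hl
          _ ≤ s.val := Nat.div_mul_le_self _ _
      nlinarith
    have h2 := hv s ⟨l * (n + 1) + i.val, ht.trans s.isLt⟩ ht
    have h3 : (l * (n + 1) + i.val) / (n + 1) = l := by
      rw [mul_comm, Nat.mul_add_div (by omega), Nat.div_eq_of_lt hi, add_zero]
    have h4 : (l * (n + 1) + i.val) % (n + 1) = i.val := by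
      rw [mul_comm, Nat.mul_add_mod, Nat.mod_eq_of_lt hi]
    simp only [ha, h3, h4] at h2
    exact h2
  -- the norms
  have hnorm : ∀ s, ∫ z in reg p, ∫ θ in (0 : ℝ)..(2 * π), g s (z, θ) ^ 2 =
      2 * π * volume.real (reg p) := by
    intro s
    have hij : ∀ i j, IntegrableOn (fun z => ∫ θ in (0 : ℝ)..(2 * π), f i (z, θ) * f j (z, θ))
        (reg p) := by
      intro i j
      have h0 : ∀ x, 0 ≤ C₀ i := fun x => (abs_nonneg _).trans (hC₀ i x)
      refine mean_int (C := C₀ i * C₀ j) (f := fun x => f i x * f j x) hfin ((hf i).mul (hf j))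
        fun x => ?_
      rw [abs_mul]
      exact mul_le_mul (hC₀ i x) (hC₀ j x) (abs_nonneg _) (h0 x)
    have hsl : ∀ z i j, IntervalIntegrable (fun θ => f i (z, θ) * f j (z, θ)) volume 0 (2 * π) := by
      intro z i j
      have h0 : ∀ x, 0 ≤ C₀ i := fun x => (abs_nonneg _).trans (hC₀ i x)
      refine slice_ii (C := C₀ i * C₀ j) (f := fun x => f i x * f j x) ((hf i).mul (hf j))
        (fun x => ?_) z
      rw [abs_mul]
      exact mul_le_mul (hC₀ i x) (hC₀ j x) (abs_nonneg _) (h0 x)
    have e1 : ∀ z θ, g s (z, θ) ^ 2 = ∑ i, ∑ j, (v s i * v s j) * (f i (z, θ) * f j (z, θ)) := by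
      intro z θ
      simp only [hg]
      rw [sq, Finset.sum_mul_sum]
      refine Finset.sum_congr rfl fun i _ => Finset.sum_congr rfl fun j _ => by ring
    have e2 : ∀ z, ∫ θ in (0 : ℝ)..(2 * π), g s (z, θ) ^ 2 =
        ∑ i, ∑ j, (v s i * v s j) * ∫ θ in (0 : ℝ)..(2 * π), f i (z, θ) * f j (z, θ) := by
      intro z
      simp only [e1]
      rw [intervalIntegral.integral_finsetSum]
      · refine Finset.sum_congr rfl fun i _ => ?_
        rw [intervalIntegral.integral_finsetSum]
        · simp only [intervalIntegral.integral_const_mul]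
        · exact fun j _ => (hsl z i j).const_mul _
      · intro i _
        rw [intervalIntegrable_iff]
        exact integrable_finsetSum _ fun j _ =>
          intervalIntegrable_iff.1 ((hsl z i j).const_mul (v s i * v s j))
    simp only [e2]
    rw [integral_finsetSum _ fun i _ => integrable_finsetSum _ fun j _ => (hij i j).const_mul _]
    have e3 : ∀ i, ∫ z in reg p, ∑ j, (v s i * v s j) *
        ∫ θ in (0 : ℝ)..(2 * π), f i (z, θ) * f j (z, θ) =
        v s i ^ 2 * (2 * π * volume.real (reg p)) := by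
      intro i
      rw [integral_finsetSum _ fun j _ => (hij i j).const_mul _]
      have e4 : ∀ j, ∫ z in reg p, (v s i * v s j) *
          ∫ θ in (0 : ℝ)..(2 * π), f i (z, θ) * f j (z, θ) =
          if i = j then v s i ^ 2 * (2 * π * volume.real (reg p)) else 0 := by
        intro j
        have h1 := ho i j
        rw [hreg] at h1
        unfold posMean at h1
        rw [integral_div, div_eq_iff hpi.ne'] at h1
        rw [integral_const_mul, h1]
        by_cases h : i = j
        · simp only [h, if_true]; ring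
        · simp only [h, if_false]; ring
      simp only [e4, Finset.sum_ite_eq, Finset.mem_univ, if_true]
    rw [Finset.sum_congr rfl fun i _ => e3 i, ← Finset.sum_mul, unit_sq, one_mul]
  -- the sum of the energies of the mode
  have hsum : ∑ s, En p (g s) m = (2 * π) ^ 2 * ∫ z in reg p, ∑ j, ‖mode m (f j) z‖ ^ 2 := by
    unfold En
    rw [← integral_finsetSum _ fun s _ => en_integrable hfin (hgm s) (hgb s) m, ← integral_const_mul]
    refine integral_congr_ae (ae_of_all _ fun z => ?_)
    simp only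
    have e1 : ∀ s, ∫ θ in (0 : ℝ)..(2 * π), (g s (z, θ) : ℂ) * exp ((m * θ : ℝ) * I) =
        ∑ j, (v s j : ℂ) * ∫ θ in (0 : ℝ)..(2 * π), (f j (z, θ) : ℂ) * exp ((m * θ : ℝ) * I) := by
      intro s
      have e3 : ∀ θ : ℝ, (g s (z, θ) : ℂ) * exp ((m * θ : ℝ) * I) =
          ∑ j, (v s j : ℂ) * ((f j (z, θ) : ℂ) * exp ((m * θ : ℝ) * I)) := by
        intro θ
        simp only [hg]
        rw [ofReal_sum, Finset.sum_mul]
        refine Finset.sum_congr rfl fun j _ => ?_
        push_cast
        ring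
      simp only [e3]
      rw [intervalIntegral.integral_finsetSum]
      · simp only [intervalIntegral.integral_const_mul]
      · exact fun j _ => (slice_exp_ii (hf j) (hC₀ j) z m).const_mul _
    simp only [e1]
    rw [parseval_c, Finset.mul_sum]
    refine Finset.sum_congr rfl fun j _ => ?_
    unfold mode
    rw [norm_div, div_pow, norm_real, Real.norm_eq_abs, sq_abs,
      mul_div_cancel₀ _ (pow_ne_zero 2 hpi.ne')]
  have hle : ∑ s, En p (g s) m ≤ ∑ s : Fin M, (2 * π) ^ 2 * volume.real (reg p) *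
      ((1 : ℝ) / (2 * (s.val / (n + 1) : ℕ) + 1)) := by
    refine Finset.sum_le_sum fun s _ => ?_
    have h1 := hE s
    rw [hnorm s] at h1
    have h2 : (0 : ℝ) < 2 * ((s.val / (n + 1) : ℕ) : ℝ) + 1 := by positivity
    rw [mul_one_div, le_div_iff₀ h2]
    linarith
  rw [hsum, ← Finset.mul_sum, mul_assoc] at hle
  rw [hreg]
  exact le_of_mul_le_mul_left hle (by positivity)

/-- the case of the position means -/
theorem many_funs (P : Parts) {p : Fin (n + 3) → ℂ} (hp : IsConvexPolygon p)
    (f : Fin M → ℂ × ℝ → ℝ) (hf : ∀ j, Measurable (f j)) (hb : ∀ j, ∃ C : ℝ, ∀ x, |f j x| ≤ C)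
    (hI : ∀ j, IsInvariantFun p (f j))
    (ho : ∀ i j, ∫ z in region p, posMean (fun x => f i x * f j x) z =
      if i = j then volume.real (region p) else 0) :
    ∫ z in region p, ∑ j, posMean (f j) z ^ 2 ≤
      volume.real (region p) * ∑ s : Fin M, (1 : ℝ) / (2 * (s.val / (n + 1) : ℕ) + 1) := by
  have h := many_modes P hp f hf hb hI ho 0
  simp only [mode_zero] at h
  exact h

end Run7.h907.BL
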