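import Pool.Agent.Run7.h907.BL.Shift
import Pool.Agent.Run7.h907.BL.Area
import Pool.Agent.N440.LB.Fin

set_option autoImplicit false

/-!
The energy of the mode 0 is at most the energy of the mode 2, for functions of mean zero.
-/

namespace Run7.h907.BL

open Complex Set MeasureTheory Filter Topology Pool.Agent.W780.PG Pool.Agent.W780.BB
  Pool.Agent.TH103.BL Pool.Agent.N440.LB

open scoped Real ComplexConjugate

variable {n : ℕ}

theorem int_mul_meas {f : ℂ × ℝ → ℝ} (hf : Measurable f) :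
    Measurable (fun z : ℂ => ∫ θ in (0 : ℝ)..(2 * π), f (z, θ)) := by
  simp only [intervalIntegral.integral_of_le (by positivity : (0:ℝ) ≤ 2 * π)]
  exact (hf.stronglyMeasurable.integral_prod_right' (ν := volume.restrict (Ioc 0 (2 * π)))).measurable

theorem slice_ii {f : ℂ × ℝ → ℝ} (hf : Measurable f) {C : ℝ} (hb : ∀ x, |f x| ≤ C) (z : ℂ) :
    IntervalIntegrable (fun θ => f (z, θ)) volume 0 (2 * π) :=
  ii' (K := C) (hf.comp measurable_prodMk_left).stronglyMeasurable fun θ => hb _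

theorem slice_exp_ii {f : ℂ × ℝ → ℝ} (hf : Measurable f) {C : ℝ} (hb : ∀ x, |f x| ≤ C) (z : ℂ)
    (m : ℕ) : IntervalIntegrable (fun θ : ℝ => (f (z, θ) : ℂ) * exp ((m * θ : ℝ) * I))
      volume 0 (2 * π) := by
  refine ii' (K := C) ?_ ?_
  · have h : Continuous (fun θ : ℝ => exp ((m * θ : ℝ) * I)) := by fun_prop
    exact ((measurable_ofReal.comp (hf.comp measurable_prodMk_left)).mul
      h.measurable).stronglyMeasurable
  · intro θ
    rw [norm_mul, norm_exp_ofReal_mul_I, mul_one, norm_real]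
    exact hb _

theorem slice_bdd {f : ℂ × ℝ → ℝ} {C : ℝ} (hb : ∀ x, |f x| ≤ C) (z : ℂ) :
    |∫ θ in (0 : ℝ)..(2 * π), f (z, θ)| ≤ C * (2 * π) := by
  have := intervalIntegral.norm_integral_le_of_norm_le_const (a := 0) (b := 2 * π) (C := C)
    (f := fun θ => f (z, θ)) (fun θ _ => hb _)
  rw [Real.norm_eq_abs] at this
  refine this.trans ?_
  rw [sub_zero, abs_of_nonneg (by positivity)]

theorem mean_int {p : Fin (n + 3) → ℂ} (hfin : volume (reg p) < ⊤) {f : ℂ × ℝ → ℝ}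
    (hf : Measurable f) {C : ℝ} (hb : ∀ x, |f x| ≤ C) :
    IntegrableOn (fun z => ∫ θ in (0 : ℝ)..(2 * π), f (z, θ)) (reg p) :=
  Measure.integrableOn_of_bounded (M := C * (2 * π)) hfin.ne (int_mul_meas hf).aestronglyMeasurable
    (ae_of_all _ fun z => slice_bdd hb z)

theorem en_zero (p : Fin (n + 3) → ℂ) (f : ℂ × ℝ → ℝ) :
    En p f 0 = ∫ z in reg p, (∫ θ in (0 : ℝ)..(2 * π), f (z, θ)) ^ 2 := by
  unfold En
  refine integral_congr_ae (ae_of_all _ fun z => ?_)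
  simp only [Nat.cast_zero, zero_mul, ofReal_zero, exp_zero, mul_one]
  rw [intervalIntegral.integral_ofReal, norm_real, Real.norm_eq_abs, sq_abs]

/-- the energies of `f + s` -/
theorem en_add_two (p : Fin (n + 3) → ℂ) {f : ℂ × ℝ → ℝ} (hf : Measurable f) {C : ℝ}
    (hb : ∀ x, |f x| ≤ C) (s : ℝ) : En p (fun x => f x + s) 2 = En p f 2 := by
  unfold En
  refine integral_congr_ae (ae_of_all _ fun z => ?_)
  have h : ∫ θ in (0 : ℝ)..(2 * π), (((f (z, θ) + s : ℝ)) : ℂ) * exp (((2 : ℕ) * θ : ℝ) * I) =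
      ∫ θ in (0 : ℝ)..(2 * π), (f (z, θ) : ℂ) * exp (((2 : ℕ) * θ : ℝ) * I) := by
    have h1 : ∀ θ : ℝ, (((f (z, θ) + s : ℝ)) : ℂ) * exp (((2 : ℕ) * θ : ℝ) * I) =
        (f (z, θ) : ℂ) * exp (((2 : ℕ) * θ : ℝ) * I) + s * exp (((2 * θ : ℝ) : ℂ) * I) := by
      intro θ; push_cast; ring
    simp only [h1]
    rw [intervalIntegral.integral_add (slice_exp_ii hf hb z 2), intervalIntegral.integral_const_mul,
      int_exp_two, mul_zero, add_zero]
    apply Continuous.intervalIntegrable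
    fun_prop
  simp only [h]

theorem en_add_zero {p : Fin (n + 3) → ℂ} (hfin : volume (reg p) < ⊤) {f : ℂ × ℝ → ℝ}
    (hf : Measurable f) {C : ℝ} (hb : ∀ x, |f x| ≤ C)
    (h0 : ∫ z in reg p, ∫ θ in (0 : ℝ)..(2 * π), f (z, θ) = 0) (s : ℝ) :
    En p f 0 ≤ En p (fun x => f x + s) 0 := by
  rw [en_zero, en_zero]
  have h1 : ∀ z, (∫ θ in (0 : ℝ)..(2 * π), (f (z, θ) + s)) ^ 2 =
      (∫ θ in (0 : ℝ)..(2 * π), f (z, θ)) ^ 2 + 4 * π * s * (∫ θ in (0 : ℝ)..(2 * π), f (z, θ)) +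
        (2 * π * s) ^ 2 := by
    intro z
    rw [intervalIntegral.integral_add (slice_ii hf hb z) intervalIntegrable_const,
      intervalIntegral.integral_const]
    simp only [sub_zero, smul_eq_mul]
    ring
  simp only [h1]
  have hs : IntegrableOn (fun z => (∫ θ in (0 : ℝ)..(2 * π), f (z, θ)) ^ 2) (reg p) := by
    refine Measure.integrableOn_of_bounded (M := (C * (2 * π)) ^ 2) hfin.ne
      ((int_mul_meas hf).pow_const 2).aestronglyMeasurable (ae_of_all _ fun z => ?_)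
    rw [Real.norm_eq_abs, abs_pow]
    exact pow_le_pow_left₀ (abs_nonneg _) (slice_bdd hb z) 2
  have hm := (mean_int hfin hf hb).const_mul (4 * π * s)
  have hc : IntegrableOn (fun _ : ℂ => (2 * π * s) ^ 2) (reg p) := integrableOn_const hfin.ne
  have hsm : IntegrableOn (fun z => (∫ θ in (0 : ℝ)..(2 * π), f (z, θ)) ^ 2 +
      4 * π * s * ∫ θ in (0 : ℝ)..(2 * π), f (z, θ)) (reg p) := hs.add hm
  rw [integral_add hsm hc, integral_add hs hm, integral_const_mul, h0, mul_zero, add_zero]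
  have : 0 ≤ ∫ _ in reg p, (2 * π * s) ^ 2 := integral_nonneg fun _ => sq_nonneg _
  linarith

theorem exp_tau {p : Fin (n + 3) → ℂ} (hp : IsConvexPolygon p) (i : Fin (n + 3)) (ρ : ℝ) :
    (ρ : ℂ) * exp ((((1 : ℕ) * tau p i : ℝ) : ℂ) * I) =
      ((ρ / ‖p (i + 1) - p i‖ : ℝ) : ℂ) * (p (i + 1) - p i) := by
  have h1 := norm_mul_exp_arg_mul_I (p (i + 1) - p i)
  have h2 : (‖p (i + 1) - p i‖ : ℂ) ≠ 0 := by
    exact_mod_cast norm_ne_zero_iff.2 (side_ne hp i)
  have h3 : exp ((((1 : ℕ) * tau p i : ℝ) : ℂ) * I) = exp (((arg (p (i + 1) - p i) : ℝ) : ℂ) * I) := by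
    congr 1
    unfold tau
    push_cast
    ring
  rw [h3]
  have h4 : ((ρ / ‖p (i + 1) - p i‖ : ℝ) : ℂ) * (p (i + 1) - p i) =
      ((ρ / ‖p (i + 1) - p i‖ : ℝ) : ℂ) *
        (‖p (i + 1) - p i‖ * exp (((arg (p (i + 1) - p i) : ℝ) : ℂ) * I)) := by rw [h1]
  rw [h4, ofReal_div, ← mul_assoc, div_mul_cancel₀ _ h2]

/-- the energy of the mode 0 is at most the energy of the mode 2 -/
theorem en_le (P : Parts) {p : Fin (n + 3) → ℂ} (hp : IsConvexPolygon p) {f : ℂ × ℝ → ℝ}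
    (hf : Measurable f) {C₀ : ℝ} (hb : ∀ x, |f x| ≤ C₀) (hI : IsInvariantFun p f)
    (h0 : ∫ z in reg p, ∫ θ in (0 : ℝ)..(2 * π), f (z, θ) = 0) : En p f 0 ≤ En p f 2 := by
  obtain ⟨C, F, hF⟩ := P.ch P.basic P.hull n p hp f hf ⟨C₀, hb⟩ hI
  have hfin := reg_bounded P.hull hp
  have hmeas : MeasurableSet (reg p) := (P.basic n p hp).2.1.measurableSet
  obtain ⟨t, L, R, hLR, harea⟩ := exists_functional hp
  set s : ℝ := (sx t (I * Phi F 1 (p L)) - sx t (I * Phi F 1 (p R))) /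
    (π * (sx t (p R) - sx t (p L))) with hs
  have hne : sx t (p R) - sx t (p L) ≠ 0 := sub_ne_zero.2 hLR.ne'
  have hF' := chord_add hF s
  have hfs : Measurable (fun x => f x + s) := hf.add measurable_const
  have hbs : ∀ x, |f x + s| ≤ C₀ + |s| := fun x => (abs_add_le _ _).trans
    (add_le_add (hb x) le_rfl)
  have htr := transfer P.i1 P.div P.gf P.sy P.fa hp hfin hmeas hfs hbs hF' 1 le_rfl
  set Q : Fin (n + 3) → ℂ := fun i => I * Phi (fun θ u => F θ u + s) 1 (p i) with hQ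
  have hQe : ∀ i, ∃ r : ℝ, Q (i + 1) - Q i = r * (p (i + 1) - p i) := by
    intro i
    obtain ⟨ρ, hρ⟩ := phi_side P.gf P.sy hF' 1 i
    refine ⟨ρ / ‖p (i + 1) - p i‖, ?_⟩
    rw [← exp_tau hp i ρ, ← hρ]
    simp only [hQ]
    ring
  have hQv : ∀ i, Q i = I * Phi F 1 (p i) + ((π * s : ℝ) : ℂ) * p i := by
    intro i
    simp only [hQ]
    rw [Phi_add P.gf hF.meas hF.bdd]
    push_cast
    linear_combination (-(s : ℂ) * π * p i) * I_sq
  have hQs : sx t (Q L) = sx t (Q R) := by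
    rw [hQv, hQv, sx_add, sx_add, sx_mul, sx_mul]
    have h1 : s * (π * (sx t (p R) - sx t (p L))) =
        sx t (I * Phi F 1 (p L)) - sx t (I * Phi F 1 (p R)) := by
      rw [hs, div_mul_cancel₀ _ (mul_ne_zero Real.pi_ne_zero hne)]
    linarith
  have hA := harea Q hQe hQs
  have hsum : ∑ i, (conj (Q i) * Q (i + 1)).im =
      -∑ i, (Phi (fun θ u => F θ u + s) 1 (p i) *
        conj (Phi (fun θ u => F θ u + s) 1 (p (i + 1)))).im := by
    rw [← Finset.sum_neg_distrib]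
    refine Finset.sum_congr rfl fun i _ => ?_
    simp only [hQ, map_mul, conj_I, mul_im, mul_re, conj_re, conj_im, I_re, I_im, neg_re, neg_im]
    ring
  have h2 : En p (fun x => f x + s) 0 ≤ En p (fun x => f x + s) 2 := by
    have h3 : (1 : ℕ) - 1 = 0 := rfl
    rw [h3] at htr
    have h4 : (1 : ℕ) + 1 = 2 := rfl
    rw [h4] at htr
    linarith
  rw [en_add_two p hf hb s] at h2
  exact (en_add_zero hfin hf hb h0 s).trans h2

/-- position means of functions of mean zero -/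
theorem mean_zero (P : Parts) {p : Fin (n + 3) → ℂ} (hp : IsConvexPolygon p) {f : ℂ × ℝ → ℝ}
    (hf : Measurable f) {C₀ : ℝ} (hb : ∀ x, |f x| ≤ C₀) (hI : IsInvariantFun p f)
    (h0 : ∫ z in reg p, ∫ θ in (0 : ℝ)..(2 * π), f (z, θ) = 0) :
    3 * ∫ z in reg p, (∫ θ in (0 : ℝ)..(2 * π), f (z, θ)) ^ 2 ≤
      2 * π * ∫ z in reg p, ∫ θ in (0 : ℝ)..(2 * π), f (z, θ) ^ 2 := by
  have hfin := reg_bounded P.hull hp
  have h1 := en_le P hp hf hb hI h0
  have hC0 : 0 ≤ C₀ := (abs_nonneg _).trans (hb (0, 0))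
  have hE2 := en_integrable (p := p) hfin hf hb 2
  have hE0 : IntegrableOn (fun z => (∫ θ in (0 : ℝ)..(2 * π), f (z, θ)) ^ 2) (reg p) := by
    refine Measure.integrableOn_of_bounded (M := (C₀ * (2 * π)) ^ 2) hfin.ne
      ((int_mul_meas hf).pow_const 2).aestronglyMeasurable (ae_of_all _ fun z => ?_)
    rw [Real.norm_eq_abs, abs_pow]
    exact pow_le_pow_left₀ (abs_nonneg _) (slice_bdd hb z) 2
  have hsq : IntegrableOn (fun z => ∫ θ in (0 : ℝ)..(2 * π), f (z, θ) ^ 2) (reg p) :=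
    mean_int (C := C₀ ^ 2) (f := fun x => f x ^ 2) hfin (hf.pow_const 2) fun x => by
      rw [abs_pow]; exact pow_le_pow_left₀ (abs_nonneg _) (hb x) 2
  have h2 : ∫ z in reg p, ((∫ θ in (0 : ℝ)..(2 * π), f (z, θ)) ^ 2 +
      2 * ‖∫ θ in (0 : ℝ)..(2 * π), (f (z, θ) : ℂ) * exp (((2 : ℕ) * θ : ℝ) * I)‖ ^ 2) ≤
      ∫ z in reg p, 2 * π * ∫ θ in (0 : ℝ)..(2 * π), f (z, θ) ^ 2 := by
    refine integral_mono (hE0.add (hE2.const_mul 2)) (hsq.const_mul _) fun z => ?_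
    exact bessel (hf.comp measurable_prodMk_left) fun θ => hb (z, θ)
  rw [integral_add hE0 (hE2.const_mul 2), integral_const_mul, integral_const_mul] at h2
  rw [en_zero] at h1
  unfold En at h1
  linarith

end Run7.h907.BL
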