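import Pool.Agent.Run7.h907.BL.Ident

set_option autoImplicit false

/-!
Adding a constant to the function; Bessel's inequality for the modes 0 and 2.
-/

namespace Run7.h907.BL

open Complex Set MeasureTheory Filter Topology Pool.Agent.W780.PG Pool.Agent.W780.BB
  Pool.Agent.TH103.BL Pool.Agent.N440.LB

open scoped Real ComplexConjugate

variable {n : ℕ}

theorem int_exp_two : ∫ θ in (0 : ℝ)..(2 * π), exp (((2 * θ : ℝ) : ℂ) * I) = 0 := by
  have h : ∀ θ : ℝ, exp (((2 * θ : ℝ) : ℂ) * I) = exp ((2 * I) * (θ : ℂ)) := by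
    intro θ; congr 1; push_cast; ring
  simp only [h]
  rw [integral_exp_mul_complex (by simp)]
  have e1 : exp (2 * I * ((2 * π : ℝ) : ℂ)) = 1 := by
    rw [show 2 * I * ((2 * π : ℝ) : ℂ) = 2 * π * I + 2 * π * I by push_cast; ring, exp_add,
      exp_two_pi_mul_I, one_mul]
  rw [e1]
  simp

theorem off_complex (θ : ℝ) (z : ℂ) : ((off θ z : ℝ) : ℂ) =
    (exp (-(θ : ℂ) * I) * z - exp ((θ : ℂ) * I) * conj z) / (2 * I) := by
  have h2 : conj (dir θ) = exp (-(θ : ℂ) * I) := by
    unfold dir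
    rw [← exp_conj, map_mul, conj_ofReal, conj_I]; congr 1; ring
  have h3 : conj (conj (dir θ) * z) = exp ((θ : ℂ) * I) * conj z := by
    rw [map_mul, conj_conj]; rfl
  have h1 := im_eq_sub_conj (conj (dir θ) * z)
  unfold off
  rw [h1, h3, h2]

theorem int_exp_off (z : ℂ) : ∫ θ in (0 : ℝ)..(2 * π),
    exp (((1 * θ : ℝ) : ℂ) * I) * ((off θ z : ℝ) : ℂ) = -(I * π * z) := by
  have h : ∀ θ : ℝ, exp (((1 * θ : ℝ) : ℂ) * I) * ((off θ z : ℝ) : ℂ) =
      z / (2 * I) - exp (((2 * θ : ℝ) : ℂ) * I) * (conj z / (2 * I)) := by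
    intro θ
    rw [off_complex]
    have e1 : exp (((1 * θ : ℝ) : ℂ) * I) * exp (-(θ : ℂ) * I) = 1 := by
      rw [← exp_add]; rw [show ((1 * θ : ℝ) : ℂ) * I + -(θ : ℂ) * I = 0 by push_cast; ring, exp_zero]
    have e2 : exp (((1 * θ : ℝ) : ℂ) * I) * exp ((θ : ℂ) * I) = exp (((2 * θ : ℝ) : ℂ) * I) := by
      rw [← exp_add]; congr 1; push_cast; ring
    rw [← e2]
    linear_combination (z / (2 * I)) * e1
  simp only [h]
  rw [intervalIntegral.integral_sub, intervalIntegral.integral_mul_const, int_exp_two, zero_mul,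
    sub_zero, intervalIntegral.integral_const, sub_zero, real_smul]
  · push_cast
    have hI : z / (2 * I) = -(I * z / 2) := by
      rw [div_eq_iff (mul_ne_zero two_ne_zero I_ne_zero)]
      linear_combination z * I_sq
    rw [hI]
    ring
  · exact intervalIntegrable_const
  · apply Continuous.intervalIntegrable
    fun_prop

theorem ii' {E : Type} [NormedAddCommGroup E] {f : ℝ → E} {a b K : ℝ}
    (hf : StronglyMeasurable f) (hK : ∀ x, ‖f x‖ ≤ K) : IntervalIntegrable f volume a b :=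
  Pool.Agent.N370.LB.ii hf hK

/-- the primitive of `F + s` -/
theorem G_add {F : ℝ → ℝ → ℝ} {C : ℝ} (hm : Measurable (Function.uncurry F))
    (hb : ∀ θ u, |F θ u| ≤ C) (s : ℝ) (z : ℂ) (θ : ℝ) :
    G (fun θ u => F θ u + s) z θ = G F z θ + s * off θ z := by
  unfold G
  rw [intervalIntegral.integral_add, intervalIntegral.integral_const]
  · simp [mul_comm]
  · exact ii' (hm.comp measurable_prodMk_left).stronglyMeasurable (hb θ)
  · exact intervalIntegrable_const

theorem Phi_add (hGF : S_GF) {F : ℝ → ℝ → ℝ} {C : ℝ} (hm : Measurable (Function.uncurry F))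
    (hb : ∀ θ u, |F θ u| ≤ C) (s : ℝ) (z : ℂ) :
    Phi (fun θ u => F θ u + s) 1 z = Phi F 1 z - s * (I * π * z) := by
  obtain ⟨hG1, hG2, -, -⟩ := hGF F C hm hb
  unfold Phi
  have h : ∀ θ : ℝ, exp ((((1 : ℕ) * θ : ℝ) : ℂ) * I) *
      ((G (fun θ u => F θ u + s) z θ : ℝ) : ℂ) =
      exp ((((1 : ℕ) * θ : ℝ) : ℂ) * I) * ((G F z θ : ℝ) : ℂ) +
        s * (exp (((1 * θ : ℝ) : ℂ) * I) * ((off θ z : ℝ) : ℂ)) := by
    intro θ
    rw [G_add hm hb]
    push_cast
    ring
  simp only [h]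
  rw [intervalIntegral.integral_add, intervalIntegral.integral_const_mul, int_exp_off]
  · ring
  · refine ii' (K := C * ‖z‖) ?_ ?_
    · have h : Continuous (fun θ : ℝ => exp ((((1 : ℕ) * θ : ℝ) : ℂ) * I)) := by fun_prop
      exact (h.measurable.mul (measurable_ofReal.comp
        (hG1.comp (measurable_const.prodMk measurable_id)))).stronglyMeasurable
    · intro θ
      rw [norm_mul, norm_exp_ofReal_mul_I, one_mul, norm_real, Real.norm_eq_abs]
      exact hG2 _ _
  · apply Continuous.intervalIntegrable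
    have : Continuous (fun θ : ℝ => off θ z) := off_cont.comp (continuous_id.prodMk continuous_const)
    fun_prop

/-- Bessel's inequality for the modes `0` and `2` -/
theorem bessel {g : ℝ → ℝ} {C : ℝ} (hg : Measurable g) (hb : ∀ θ, |g θ| ≤ C) :
    (∫ θ in (0 : ℝ)..(2 * π), g θ) ^ 2 +
      2 * ‖∫ θ in (0 : ℝ)..(2 * π), (g θ : ℂ) * exp ((((2 : ℕ) * θ : ℝ) : ℂ) * I)‖ ^ 2 ≤
    2 * π * ∫ θ in (0 : ℝ)..(2 * π), g θ ^ 2 := by
  have hpi : (0 : ℝ) < 2 * π := by positivity
  set A : ℝ := ∫ θ in (0 : ℝ)..(2 * π), g θ with hA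
  set B : ℂ := ∫ θ in (0 : ℝ)..(2 * π), (g θ : ℂ) * exp ((((2 : ℕ) * θ : ℝ) : ℂ) * I) with hB
  have hc : Continuous (fun θ : ℝ => Real.cos (2 * θ)) := by fun_prop
  have hs : Continuous (fun θ : ℝ => Real.sin (2 * θ)) := by fun_prop
  have hgi : IntervalIntegrable g volume 0 (2 * π) := ii' hg.stronglyMeasurable hb
  have hgc : IntervalIntegrable (fun θ => g θ * Real.cos (2 * θ)) volume 0 (2 * π) :=
    hgi.mul_continuousOn hc.continuousOn
  have hgs : IntervalIntegrable (fun θ => g θ * Real.sin (2 * θ)) volume 0 (2 * π) :=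
    hgi.mul_continuousOn hs.continuousOn
  have hg2 : IntervalIntegrable (fun θ => g θ ^ 2) volume 0 (2 * π) :=
    ii' (K := C ^ 2) (hg.pow_const 2).stronglyMeasurable fun θ => by
      rw [Real.norm_eq_abs, abs_pow]
      exact pow_le_pow_left₀ (abs_nonneg _) (hb θ) 2
  have hBi : IntervalIntegrable (fun θ : ℝ => (g θ : ℂ) * exp ((((2 : ℕ) * θ : ℝ) : ℂ) * I))
      volume 0 (2 * π) := by
    refine ii' (K := C) ?_ ?_
    · have h : Continuous (fun θ : ℝ => exp ((((2 : ℕ) * θ : ℝ) : ℂ) * I)) := by fun_prop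
      exact ((measurable_ofReal.comp hg).mul h.measurable).stronglyMeasurable
    · intro θ
      rw [norm_mul, norm_exp_ofReal_mul_I, mul_one, norm_real]
      exact hb θ
  have hBre : B.re = ∫ θ in (0 : ℝ)..(2 * π), g θ * Real.cos (2 * θ) := by
    rw [hB, ← reCLM_apply, ← ContinuousLinearMap.intervalIntegral_comp_comm _ hBi]
    refine intervalIntegral.integral_congr fun θ _ => ?_
    simp only [reCLM_apply]
    rw [re_ofReal_mul, exp_ofReal_mul_I_re]
    norm_num
  have hBim : B.im = ∫ θ in (0 : ℝ)..(2 * π), g θ * Real.sin (2 * θ) := by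
    rw [hB, ← imCLM_apply, ← ContinuousLinearMap.intervalIntegral_comp_comm _ hBi]
    refine intervalIntegral.integral_congr fun θ _ => ?_
    simp only [imCLM_apply]
    rw [im_ofReal_mul, exp_ofReal_mul_I_im]
    norm_num
  have c2 : Real.cos (2 * (2 * π)) = 1 := by
    have := Real.cos_nat_mul_two_pi 2
    push_cast at this
    exact this
  have s2 : Real.sin (2 * (2 * π)) = 0 := by
    rw [show 2 * (2 * π) = ((4 : ℕ) : ℝ) * π by push_cast; ring]
    exact Real.sin_nat_mul_pi 4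
  have c4 : Real.cos (4 * (2 * π)) = 1 := by
    have := Real.cos_nat_mul_two_pi 4
    push_cast at this
    exact this
  have s4 : Real.sin (4 * (2 * π)) = 0 := by
    rw [show 4 * (2 * π) = ((8 : ℕ) : ℝ) * π by push_cast; ring]
    exact Real.sin_nat_mul_pi 8
  have hc0 : ∫ θ in (0 : ℝ)..(2 * π), Real.cos (2 * θ) = 0 := by simp [s2]
  have hs0 : ∫ θ in (0 : ℝ)..(2 * π), Real.sin (2 * θ) = 0 := by simp [c2]
  have hc4 : ∫ θ in (0 : ℝ)..(2 * π), Real.cos (4 * θ) = 0 := by simp [s4]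
  have hs4 : ∫ θ in (0 : ℝ)..(2 * π), Real.sin (4 * θ) = 0 := by simp [c4]
  -- expand the square
  have hexp : ∫ θ in (0 : ℝ)..(2 * π), (2 * π * g θ - A - 2 * B.re * Real.cos (2 * θ) -
      2 * B.im * Real.sin (2 * θ)) ^ 2 =
      (2 * π) ^ 2 * (∫ θ in (0 : ℝ)..(2 * π), g θ ^ 2) - 2 * π * (A ^ 2 + 2 * ‖B‖ ^ 2) := by
    have h1 : ∀ θ : ℝ, (2 * π * g θ - A - 2 * B.re * Real.cos (2 * θ) -
        2 * B.im * Real.sin (2 * θ)) ^ 2 =
        (2 * π) ^ 2 * g θ ^ 2 - 4 * π * A * g θ - 8 * π * B.re * (g θ * Real.cos (2 * θ)) -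
        8 * π * B.im * (g θ * Real.sin (2 * θ)) + (A ^ 2 + 2 * B.re ^ 2 + 2 * B.im ^ 2) +
        4 * A * B.re * Real.cos (2 * θ) + 4 * A * B.im * Real.sin (2 * θ) +
        2 * (B.re ^ 2 - B.im ^ 2) * Real.cos (4 * θ) + 4 * B.re * B.im * Real.sin (4 * θ) := by
      intro θ
      have e1 : Real.cos (4 * θ) = 2 * Real.cos (2 * θ) ^ 2 - 1 := by
        rw [show 4 * θ = 2 * (2 * θ) by ring, Real.cos_two_mul]
      have e2 : Real.sin (4 * θ) = 2 * Real.sin (2 * θ) * Real.cos (2 * θ) := by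
        rw [show 4 * θ = 2 * (2 * θ) by ring, Real.sin_two_mul]
      have e3 := Real.sin_sq_add_cos_sq (2 * θ)
      rw [e1, e2]
      linear_combination (4 * B.im ^ 2) * e3
    simp only [h1]
    have i1 : IntervalIntegrable (fun θ : ℝ => Real.cos (2 * θ)) volume 0 (2 * π) :=
      hc.intervalIntegrable _ _
    have i2 : IntervalIntegrable (fun θ : ℝ => Real.sin (2 * θ)) volume 0 (2 * π) :=
      hs.intervalIntegrable _ _
    have i3 : IntervalIntegrable (fun θ : ℝ => Real.cos (4 * θ)) volume 0 (2 * π) :=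
      (by fun_prop : Continuous (fun θ : ℝ => Real.cos (4 * θ))).intervalIntegrable _ _
    have i4 : IntervalIntegrable (fun θ : ℝ => Real.sin (4 * θ)) volume 0 (2 * π) :=
      (by fun_prop : Continuous (fun θ : ℝ => Real.sin (4 * θ))).intervalIntegrable _ _
    have j1 := (hg2.const_mul ((2 * π) ^ 2))
    have j2 := (hgi.const_mul (4 * π * A))
    have j3 := (hgc.const_mul (8 * π * B.re))
    have j4 := (hgs.const_mul (8 * π * B.im))
    have j5 : IntervalIntegrable (fun _ : ℝ => (A ^ 2 + 2 * B.re ^ 2 + 2 * B.im ^ 2)) volume 0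
      (2 * π) := intervalIntegrable_const
    have j6 := (i1.const_mul (4 * A * B.re))
    have j7 := (i2.const_mul (4 * A * B.im))
    have j8 := (i3.const_mul (2 * (B.re ^ 2 - B.im ^ 2)))
    have j9 := (i4.const_mul (4 * B.re * B.im))
    rw [intervalIntegral.integral_add ((((((((j1.sub j2).sub j3).sub j4).add j5).add j6).add j7).add j8)) j9,
      intervalIntegral.integral_add (((((((j1.sub j2).sub j3).sub j4).add j5).add j6).add j7)) j8,
      intervalIntegral.integral_add ((((((j1.sub j2).sub j3).sub j4).add j5).add j6)) j7,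
      intervalIntegral.integral_add (((((j1.sub j2).sub j3).sub j4).add j5)) j6,
      intervalIntegral.integral_add ((((j1.sub j2).sub j3).sub j4)) j5,
      intervalIntegral.integral_sub (((j1.sub j2).sub j3)) j4,
      intervalIntegral.integral_sub ((j1.sub j2)) j3,
      intervalIntegral.integral_sub j1 j2]
    simp only [intervalIntegral.integral_const_mul, intervalIntegral.integral_const]
    rw [hc0, hs0, hc4, hs4, ← hBre, ← hBim, ← hA, ← normSq_eq_norm_sq, normSq_apply]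
    simp only [smul_eq_mul]
    ring
  have hnn : 0 ≤ ∫ θ in (0 : ℝ)..(2 * π), (2 * π * g θ - A - 2 * B.re * Real.cos (2 * θ) -
      2 * B.im * Real.sin (2 * θ)) ^ 2 :=
    intervalIntegral.integral_nonneg hpi.le fun θ _ => sq_nonneg _
  rw [hexp] at hnn
  have : 0 ≤ (2 * π) * ((2 * π) * (∫ θ in (0 : ℝ)..(2 * π), g θ ^ 2) - (A ^ 2 + 2 * ‖B‖ ^ 2)) := by
    nlinarith
  have h2 := nonneg_of_mul_nonneg_right this hpi
  linarith

end Run7.h907.BL
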