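import Pool.Agent.Run7.h907.BL.FinC

set_option autoImplicit false

/-!
Triangles: the sign rule for the energies of the angular modes.
-/

namespace Run7.h907.BL

open Complex Set MeasureTheory Filter Topology Pool.Agent.W780.PG Pool.Agent.W780.BB
  Pool.Agent.TH103.BL Pool.Agent.N440.LB

open scoped Real ComplexConjugate

variable {n : ℕ}

/-- cosine and sine of the angle at the vertex `i + 1` -/
theorem ang_cos_sin {p : Fin (n + 3) → ℂ} (hp : IsConvexPolygon p) (i : Fin (n + 3)) :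
    ‖p (i + 1) - p i‖ * ‖p (i + 1 + 1) - p (i + 1)‖ * Real.cos (ang p (i + 1)) =
      -(conj (p (i + 1) - p i) * (p (i + 1 + 1) - p (i + 1))).re ∧
    ‖p (i + 1) - p i‖ * ‖p (i + 1 + 1) - p (i + 1)‖ * Real.sin (ang p (i + 1)) =
      (conj (p (i + 1) - p i) * (p (i + 1 + 1) - p (i + 1))).im := by
  set u := p (i + 1) - p i with hu
  set v := p (i + 1 + 1) - p (i + 1) with hv
  have hturn : 0 < (conj u * v).im := turn hp i
  have hcos : ‖u‖ * ‖v‖ * Real.cos (ang p (i + 1)) = -(conj u * v).re := by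
    unfold ang
    rw [add_sub_cancel_right]
    unfold EuclideanGeometry.angle
    rw [vsub_eq_sub, vsub_eq_sub, ← hv, show p i - p (i + 1) = -u by rw [hu]; ring]
    have h5 := InnerProductGeometry.cos_angle_mul_norm_mul_norm (-u) v
    rw [norm_neg, Complex.inner] at h5
    rw [mul_comm, h5, map_neg, mul_neg, neg_re, mul_comm]
  have hn : ‖u‖ * ‖v‖ = ‖conj u * v‖ := by rw [norm_mul, RCLike.norm_conj]
  refine ⟨hcos, ?_⟩
  have hs0 : 0 ≤ Real.sin (ang p (i + 1)) := by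
    apply Real.sin_nonneg_of_nonneg_of_le_pi
    · exact EuclideanGeometry.angle_nonneg _ _ _
    · exact EuclideanGeometry.angle_le_pi _ _ _
  have h6 : (‖u‖ * ‖v‖ * Real.sin (ang p (i + 1))) ^ 2 = ((conj u * v).im) ^ 2 := by
    have h7 : ‖conj u * v‖ ^ 2 = (conj u * v).re ^ 2 + (conj u * v).im ^ 2 := by
      rw [← normSq_eq_norm_sq, normSq_apply]; ring
    have h8 := Real.sin_sq_add_cos_sq (ang p (i + 1))
    have h9 : (‖u‖ * ‖v‖ * Real.cos (ang p (i + 1))) ^ 2 = ((conj u * v).re) ^ 2 := by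
      rw [hcos]; ring
    have h10 : (‖u‖ * ‖v‖) ^ 2 = (conj u * v).re ^ 2 + (conj u * v).im ^ 2 := by
      rw [hn]; exact h7
    have h11 : (‖u‖ * ‖v‖ * Real.sin (ang p (i + 1))) ^ 2 =
        (‖u‖ * ‖v‖) ^ 2 - (‖u‖ * ‖v‖ * Real.cos (ang p (i + 1))) ^ 2 := by
      rw [mul_pow, mul_pow _ (Real.cos _)]
      have : Real.sin (ang p (i + 1)) ^ 2 = 1 - Real.cos (ang p (i + 1)) ^ 2 := by linarith
      rw [this]; ring
    rw [h11, h9, h10]; ring
  have h12 : 0 ≤ ‖u‖ * ‖v‖ * Real.sin (ang p (i + 1)) := by positivity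
  nlinarith

/-- the exterior angle at the vertex `i + 1` -/
theorem exp_turn {p : Fin (n + 3) → ℂ} (hp : IsConvexPolygon p) (i : Fin (n + 3)) :
    exp (((tau p (i + 1) - tau p i : ℝ) : ℂ) * I) = exp (((π - ang p (i + 1) : ℝ) : ℂ) * I) := by
  set u := p (i + 1) - p i with hu
  set v := p (i + 1 + 1) - p (i + 1) with hv
  have hu0 : u ≠ 0 := side_ne hp i
  have hv0 : v ≠ 0 := side_ne hp (i + 1)
  have hun : (0 : ℝ) < ‖u‖ := norm_pos_iff.2 hu0
  have hvn : (0 : ℝ) < ‖v‖ := norm_pos_iff.2 hv0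
  have hturn : 0 < (conj u * v).im := turn hp i
  have h1 := norm_mul_exp_arg_mul_I u
  have h2 := norm_mul_exp_arg_mul_I v
  have htu : tau p i = arg u := rfl
  have htv : tau p (i + 1) = arg v := rfl
  -- left side
  have hL : ((‖u‖ * ‖v‖ : ℝ) : ℂ) * exp (((tau p (i + 1) - tau p i : ℝ) : ℂ) * I) = conj u * v := by
    have h3 : conj u = ‖u‖ * exp (-((arg u : ℝ) : ℂ) * I) := by
      conv_lhs => rw [← h1]
      rw [map_mul, conj_ofReal, ← exp_conj, map_mul, conj_ofReal, conj_I]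
      congr 2
      ring
    rw [h3]
    conv_rhs => rw [← h2]
    rw [htu, htv]
    have h4 : exp (((arg v - arg u : ℝ) : ℂ) * I) =
        exp (-((arg u : ℝ) : ℂ) * I) * exp (((arg v : ℝ) : ℂ) * I) := by
      rw [← exp_add]; congr 1; push_cast; ring
    rw [h4]
    push_cast
    ring
  -- the angle
  have hcos : ‖u‖ * ‖v‖ * Real.cos (ang p (i + 1)) = -(conj u * v).re := by
    unfold ang
    rw [add_sub_cancel_right]
    unfold EuclideanGeometry.angle
    rw [vsub_eq_sub, vsub_eq_sub, ← hv, show p i - p (i + 1) = -u by rw [hu]; ring]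
    have h5 := InnerProductGeometry.cos_angle_mul_norm_mul_norm (-u) v
    rw [norm_neg, Complex.inner] at h5
    rw [mul_comm, h5, map_neg, mul_neg, neg_re, mul_comm]
  have hn : ‖u‖ * ‖v‖ = ‖conj u * v‖ := by rw [norm_mul, RCLike.norm_conj]
  have hsin : ‖u‖ * ‖v‖ * Real.sin (ang p (i + 1)) = (conj u * v).im := by
    have hs0 : 0 ≤ Real.sin (ang p (i + 1)) := by
      apply Real.sin_nonneg_of_nonneg_of_le_pi
      · exact EuclideanGeometry.angle_nonneg _ _ _
      · exact EuclideanGeometry.angle_le_pi _ _ _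
    have h6 : (‖u‖ * ‖v‖ * Real.sin (ang p (i + 1))) ^ 2 = ((conj u * v).im) ^ 2 := by
      have h7 : ‖conj u * v‖ ^ 2 = (conj u * v).re ^ 2 + (conj u * v).im ^ 2 := by
        rw [← normSq_eq_norm_sq, normSq_apply]; ring
      have h8 := Real.sin_sq_add_cos_sq (ang p (i + 1))
      have h9 : (‖u‖ * ‖v‖ * Real.cos (ang p (i + 1))) ^ 2 = ((conj u * v).re) ^ 2 := by
        rw [hcos]; ring
      have h10 : (‖u‖ * ‖v‖) ^ 2 = (conj u * v).re ^ 2 + (conj u * v).im ^ 2 := by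
        rw [hn]; exact h7
      have h11 : (‖u‖ * ‖v‖ * Real.sin (ang p (i + 1))) ^ 2 =
          (‖u‖ * ‖v‖) ^ 2 - (‖u‖ * ‖v‖ * Real.cos (ang p (i + 1))) ^ 2 := by
        rw [mul_pow, mul_pow _ (Real.cos _)]
        have : Real.sin (ang p (i + 1)) ^ 2 = 1 - Real.cos (ang p (i + 1)) ^ 2 := by linarith
        rw [this]; ring
      rw [h11, h9, h10]; ring
    have h12 : 0 ≤ ‖u‖ * ‖v‖ * Real.sin (ang p (i + 1)) := by positivity
    nlinarith
  have hR : ((‖u‖ * ‖v‖ : ℝ) : ℂ) * exp (((π - ang p (i + 1) : ℝ) : ℂ) * I) = conj u * v := by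
    apply Complex.ext
    · rw [re_ofReal_mul, exp_ofReal_mul_I_re, Real.cos_pi_sub]
      linarith
    · rw [im_ofReal_mul, exp_ofReal_mul_I_im, Real.sin_pi_sub]
      linarith
  have hne : ((‖u‖ * ‖v‖ : ℝ) : ℂ) ≠ 0 := by exact_mod_cast (mul_pos hun hvn).ne'
  exact mul_left_cancel₀ hne (hL.trans hR.symm)

theorem sin_turn {p : Fin (n + 3) → ℂ} (hp : IsConvexPolygon p) (i : Fin (n + 3)) (k : ℕ) :
    Real.sin (k * (tau p (i + 1) - tau p i)) = (-1) ^ (k + 1) * Real.sin (k * ang p (i + 1)) := by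
  have h1 : exp (((k * (tau p (i + 1) - tau p i) : ℝ) : ℂ) * I) =
      exp (((k * (π - ang p (i + 1)) : ℝ) : ℂ) * I) := by
    have e : ∀ x : ℝ, exp (((k * x : ℝ) : ℂ) * I) = exp ((x : ℂ) * I) ^ k := by
      intro x
      rw [← exp_nat_mul]; congr 1; push_cast; ring
    rw [e, e, exp_turn hp]
  have h2 := congrArg Complex.im h1
  rw [exp_ofReal_mul_I_im, exp_ofReal_mul_I_im] at h2
  rw [h2, mul_sub, Real.sin_sub, Real.sin_nat_mul_pi, Real.cos_nat_mul_pi, zero_mul, zero_sub,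
    pow_succ]
  ring

/-- the sign rule -/
theorem sign_rule (P : Parts) {p : Fin (0 + 3) → ℂ} (hp : IsConvexPolygon p) {f : ℂ × ℝ → ℝ}
    (hf : Measurable f) {C₀ : ℝ} (hb : ∀ x, |f x| ≤ C₀) (hI : IsInvariantFun p f) (k : ℕ)
    (hk : 1 ≤ k) :
    0 ≤ (-1) ^ (k + 1) * (Real.sin (k * ang p 0) * Real.sin (k * ang p 1) * Real.sin (k * ang p 2)) *
      (En p f (k - 1) - En p f (k + 1)) ∧
    (Real.sin (k * ang p 0) * Real.sin (k * ang p 1) * Real.sin (k * ang p 2) = 0 →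
      En p f (k - 1) = En p f (k + 1)) := by
  obtain ⟨C, F, hF⟩ := P.ch P.basic P.hull 0 p hp f hf ⟨C₀, hb⟩ hI
  have hfin := reg_bounded P.hull hp
  have hmeas : MeasurableSet (reg p) := (P.basic 0 p hp).2.1.measurableSet
  have htr := transfer P.i1 P.div P.gf P.sy P.fa hp hfin hmeas hf hb hF k hk
  have hρ := fun i => rho_side P.gf P.sy hF k i
  set ρ : Fin (0 + 3) → ℝ := fun i => rho p F k i with hρd
  set Φ : Fin (0 + 3) → ℂ := fun i => Phi F k (p i) with hΦ
  set S : ℝ := -∑ i, (Φ i * conj (Φ (i + 1))).im with hS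
  have hS2 : En p f (k - 1) - En p f (k + 1) = 2 * S := by
    rw [hS]
    have : ∑ i, (Φ i * conj (Φ (i + 1))).im =
      ∑ i, (Phi F k (p i) * conj (Phi F k (p (i + 1)))).im := rfl
    rw [this, ← htr]
    ring
  -- the sum over the three sides
  have e01 : (0 : Fin (0 + 3)) + 1 = 1 := rfl
  have e12 : (1 : Fin (0 + 3)) + 1 = 2 := rfl
  have e20 : (2 : Fin (0 + 3)) + 1 = 0 := rfl
  have hcr : ∀ i : Fin (0 + 3), S = ρ i * ρ (i + 1) *
      Real.sin (k * (tau p (i + 1) - tau p i)) := by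
    intro i
    have h1 : S = (conj (I * (Φ (i + 1) - Φ i)) * (I * (Φ (i + 1 + 1) - Φ (i + 1)))).im := by
      rw [hS, Fin.sum_univ_three]
      fin_cases i
      · simp only [e01, e12, e20, Fin.mk_zero, Fin.zero_eta, Fin.isValue]
        simp only [map_mul, map_sub, conj_I, mul_im, mul_re, conj_re, conj_im, I_re, I_im, neg_re,
          neg_im, sub_re, sub_im]
        ring
      · simp only [e01, e12, e20, Fin.mk_one, Fin.isValue]
        simp only [map_mul, map_sub, conj_I, mul_im, mul_re, conj_re, conj_im, I_re, I_im, neg_re,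
          neg_im, sub_re, sub_im]
        ring
      · simp only [e01, e12, e20, Fin.reduceFinMk, Fin.isValue]
        simp only [map_mul, map_sub, conj_I, mul_im, mul_re, conj_re, conj_im, I_re, I_im, neg_re,
          neg_im, sub_re, sub_im]
        ring
    rw [h1, hρ i, hρ (i + 1), map_mul, conj_ofReal, ← exp_conj, map_mul, conj_ofReal, conj_I]
    have h2 : (ρ i : ℂ) * exp (((k * tau p i : ℝ) : ℂ) * -I) *
        (ρ (i + 1) * exp (((k * tau p (i + 1) : ℝ) : ℂ) * I)) =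
        ((ρ i * ρ (i + 1) : ℝ) : ℂ) * exp (((k * (tau p (i + 1) - tau p i) : ℝ) : ℂ) * I) := by
      have h3 : exp (((k * (tau p (i + 1) - tau p i) : ℝ) : ℂ) * I) =
          exp (((k * tau p i : ℝ) : ℂ) * -I) * exp (((k * tau p (i + 1) : ℝ) : ℂ) * I) := by
        rw [← exp_add]; congr 1; push_cast; ring
      rw [h3]
      push_cast
      ring
    have h4 : (conj (Φ 0)) = conj (Φ 0) := rfl
    have h5 := congrArg Complex.im h2
    rw [im_ofReal_mul, exp_ofReal_mul_I_im] at h5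
    exact h5
  have c0 := hcr 2
  have c1 := hcr 0
  have c2 := hcr 1
  rw [sin_turn hp 2, e20] at c0
  rw [sin_turn hp 0, e01] at c1
  rw [sin_turn hp 1, e12] at c2
  set s0 := Real.sin (k * ang p 0) with hs0
  set s1 := Real.sin (k * ang p 1) with hs1
  set s2 := Real.sin (k * ang p 2) with hs2
  set ε : ℝ := (-1) ^ (k + 1) with hε
  have hε2 : ε ^ 2 = 1 := by
    rw [hε, ← pow_mul, mul_comm, pow_mul]; norm_num
  rw [hS2]
  constructor
  · have h6 : S ^ 3 * (ε * (s0 * s1 * s2)) = (ρ 0 * ρ 1 * ρ 2 * (s0 * s1 * s2)) ^ 2 := by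
      have h7 : S ^ 3 = (ρ 2 * ρ 0 * (ε * s0)) * (ρ 0 * ρ 1 * (ε * s1)) * (ρ 1 * ρ 2 * (ε * s2)) := by
        rw [← c0, ← c1, ← c2]; ring
      rw [h7]
      linear_combination ((ρ 0 * ρ 1 * ρ 2 * (s0 * s1 * s2)) ^ 2 * (ε ^ 2 + 1)) * hε2
    have h8 : 0 ≤ S ^ 3 * (ε * (s0 * s1 * s2)) := by rw [h6]; exact sq_nonneg _
    by_cases hS0 : S = 0
    · rw [hS0]; simp
    · have h9 : 0 < S ^ 2 := by positivity
      have h10 : 0 ≤ S ^ 2 * (S * (ε * (s0 * s1 * s2))) := by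
        have : S ^ 2 * (S * (ε * (s0 * s1 * s2))) = S ^ 3 * (ε * (s0 * s1 * s2)) := by ring
        rw [this]; exact h8
      have h11 := nonneg_of_mul_nonneg_right h10 h9
      nlinarith
  · intro h0
    have hS0 : S = 0 := by
      rcases mul_eq_zero.1 h0 with h | h
      · rcases mul_eq_zero.1 h with h | h
        · rw [c0, h]; ring
        · rw [c1, h]; ring
      · rw [c2, h]; ring
    linarith [hS2, hS0]

/-- The energy of the Fourier mode number `m` in the direction of the function `f` of the state. -/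
noncomputable def energy (p : Fin (n + 3) → ℂ) (f : ℂ × ℝ → ℝ) (m : ℕ) : ℝ :=
  ∫ z in region p, ‖mode m f z‖ ^ 2

theorem en_energy (P : Parts) {p : Fin (n + 3) → ℂ} (hp : IsConvexPolygon p) (f : ℂ × ℝ → ℝ)
    (m : ℕ) : En p f m = (2 * π) ^ 2 * energy p f m := by
  have hpi : (0 : ℝ) < 2 * π := by positivity
  have hreg : region p = reg p := (P.hull n p hp).2
  unfold En energy
  rw [hreg, ← integral_const_mul]
  refine integral_congr_ae (ae_of_all _ fun z => ?_)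
  simp only
  unfold mode
  rw [norm_div, div_pow, norm_real, Real.norm_eq_abs, sq_abs,
    mul_div_cancel₀ _ (pow_ne_zero 2 hpi.ne')]

/-- the modes 0 and 2 of functions of mean zero in triangles -/
theorem tri_zero (P : Parts) {p : Fin (0 + 3) → ℂ} (hp : IsConvexPolygon p) {f : ℂ × ℝ → ℝ}
    (hf : Measurable f) {C₀ : ℝ} (hb : ∀ x, |f x| ≤ C₀) (hI : IsInvariantFun p f)
    (h0 : ∫ z in reg p, ∫ θ in (0 : ℝ)..(2 * π), f (z, θ) = 0) : En p f 0 = En p f 2 := by
  refine le_antisymm (en_le P hp hf hb hI h0) ?_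
  have h1 := (sign_rule P hp hf hb hI 1 le_rfl).1
  have hs : ∀ i : Fin (0 + 3), 0 < Real.sin (ang p (i + 1)) := by
    intro i
    have h2 := (ang_cos_sin hp i).2
    have h3 := turn hp i
    rw [← h2] at h3
    have h4 : 0 ≤ ‖p (i + 1) - p i‖ * ‖p (i + 1 + 1) - p (i + 1)‖ := by positivity
    by_contra hcon
    have h5 : Real.sin (ang p (i + 1)) ≤ 0 := not_lt.1 hcon
    nlinarith [mul_nonneg h4 (neg_nonneg.2 h5)]
  have s1 := hs 0
  have s2 := hs 1
  have s0 := hs 2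
  have e01 : (0 : Fin (0 + 3)) + 1 = 1 := rfl
  have e12 : (1 : Fin (0 + 3)) + 1 = 2 := rfl
  have e20 : (2 : Fin (0 + 3)) + 1 = 0 := rfl
  rw [e01] at s1
  rw [e12] at s2
  rw [e20] at s0
  simp only [Nat.cast_one, one_mul] at h1
  norm_num at h1
  have h2 : 0 < Real.sin (ang p 0) * Real.sin (ang p 1) * Real.sin (ang p 2) := by positivity
  have h3 := nonneg_of_mul_nonneg_right h1 h2
  linarith

/-- position means with the factor `1 / 5` -/
theorem fifth (P : Parts) {p : Fin (0 + 3) → ℂ} (hp : IsConvexPolygon p)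
    (h3 : Real.sin (3 * ang p 0) * Real.sin (3 * ang p 1) * Real.sin (3 * ang p 2) < 0)
    {f : ℂ × ℝ → ℝ} (hf : Measurable f) {C₀ : ℝ} (hb : ∀ x, |f x| ≤ C₀) (hI : IsInvariantFun p f)
    (h0 : ∫ z in reg p, ∫ θ in (0 : ℝ)..(2 * π), f (z, θ) = 0) :
    5 * ∫ z in reg p, (∫ θ in (0 : ℝ)..(2 * π), f (z, θ)) ^ 2 ≤
      2 * π * ∫ z in reg p, ∫ θ in (0 : ℝ)..(2 * π), f (z, θ) ^ 2 := by
  have hfin := reg_bounded P.hull hp
  have hE02 := tri_zero P hp hf hb hI h0
  have hE24 : En p f 2 ≤ En p f 4 := by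
    have h1 := (sign_rule P hp hf hb hI 3 (by norm_num)).1
    have e1 : ((3 : ℕ) : ℝ) = 3 := by norm_num
    rw [e1] at h1
    have e2 : ((-1 : ℝ)) ^ (3 + 1) = 1 := by norm_num
    rw [e2, one_mul] at h1
    have e3 : (3 : ℕ) - 1 = 2 := rfl
    have e4 : (3 : ℕ) + 1 = 4 := rfl
    rw [e3, e4] at h1
    by_contra hcon
    have h2 : 0 < En p f 2 - En p f 4 := by linarith [not_le.1 hcon]
    nlinarith [mul_pos (neg_pos.2 h3) h2]
  have hsq : IntegrableOn (fun z => ∫ θ in (0 : ℝ)..(2 * π), f (z, θ) ^ 2) (reg p) :=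
    mean_int (C := C₀ ^ 2) (f := fun x => f x ^ 2) hfin (hf.pow_const 2) fun x => by
      rw [abs_pow]; exact pow_le_pow_left₀ (abs_nonneg _) (hb x) 2
  have h1 : ∫ z in reg p, ∑ l ∈ Finset.Icc (-((2 : ℕ) : ℤ)) (2 : ℕ),
      ‖∫ θ in (0 : ℝ)..(2 * π), (f (z, θ) : ℂ) *
        exp (((((0 + 2 * l.natAbs : ℕ)) : ℝ) * θ : ℝ) * I)‖ ^ 2 ≤
      ∫ z in reg p, 2 * π * ∫ θ in (0 : ℝ)..(2 * π), f (z, θ) ^ 2 := by
    refine integral_mono (integrable_finsetSum _ fun l _ => en_integrable hfin hf hb _)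
      (hsq.const_mul _) fun z => ?_
    exact bessel_multi (hf.comp measurable_prodMk_left) (fun θ => hb (z, θ)) 0 2
  rw [integral_finsetSum _ fun l _ => en_integrable hfin hf hb _, integral_const_mul] at h1
  have hset : Finset.Icc (-((2 : ℕ) : ℤ)) (2 : ℕ) = {-2, -1, 0, 1, 2} := by decide
  have h2 : ∑ l ∈ Finset.Icc (-((2 : ℕ) : ℤ)) (2 : ℕ), (∫ z in reg p,
      ‖∫ θ in (0 : ℝ)..(2 * π), (f (z, θ) : ℂ) *
        exp (((((0 + 2 * l.natAbs : ℕ)) : ℝ) * θ : ℝ) * I)‖ ^ 2) =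
      En p f 4 + (En p f 2 + (En p f 0 + (En p f 2 + En p f 4))) := by
    rw [hset, Finset.sum_insert (by decide), Finset.sum_insert (by decide),
      Finset.sum_insert (by decide), Finset.sum_insert (by decide), Finset.sum_singleton]
    rfl
  rw [h2] at h1
  rw [en_zero] at hE02 h1
  linarith

end Run7.h907.BL
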